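import Pool.Agent.K4H15.BZ.Eul

/-!
The `L`-function of the triple product.
-/

set_option autoImplicit false

namespace Pool.Agent.K4H15.BZ

open NumberField IsDedekindDomain Matrix
open scoped Pointwise Kronecker
open Pool.Agent.K4H55.BI (IQ sym gen gen_span gen_dvd gen_prime gen_na)
open Pool.Agent.K4H55.BD (tau tv tau_tau tau_int mul_tau mem_tv res_int int_mem norm_gen nv_cases
  uniq_over two_notMem pv pv_twist fin_over norm_eq char_ne_two cjK coe_tau cjK_cjK low mem_low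
  mem_tv_nat bad_fin)
open Pool.Agent.R431.B (FrobSet frob_iff frob_nonempty frob_conj trans_over frob_stab inc inc_inj
  exists_place cpow_quad)
open Pool.Agent.K4H15.BT (Eig det_eig cM cM_mul cM_one frobM frobM_single quad_fac exists_eig
  frobM_conj quad_sandwich cM_inv cM_inv')
open Pool.Agent.K4H15.BW (NVD efD)

variable {K F : Type} [Field K] [NumberField K] [Field F] [NumberField F] [Algebra K F]
  {σ : K →+* ℂ} {δ : K}

section ram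

variable {κ : Type} [Fintype κ] [DecidableEq κ] {ρ : (F ≃ₐ[ℚ] F) →* GL κ ℂ} {p : ℕ}
  {v : HeightOneSpectrum (𝓞 F)}

lemma frobM_inertia_aux {v : HeightOneSpectrum (𝓞 F)} {j : F ≃ₐ[ℚ] F}
    (hj : ∀ x : 𝓞 F, j • x - x ∈ v.asIdeal) (x : 𝓞 F) : j⁻¹ • x - x ∈ v.asIdeal := by
  have h1 := hj (j⁻¹ • x)
  rw [smul_inv_smul] at h1
  rw [← neg_sub]
  exact v.asIdeal.neg_mem h1

/-- the inertia group acts trivially on the image of the mean -/
lemma frobM_inertia (hp : p.Prime) (hpv : (p : 𝓞 F) ∈ v.asIdeal) {j : F ≃ₐ[ℚ] F}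
    (hj : ∀ x : 𝓞 F, j • x - x ∈ v.asIdeal) : cM (ρ j) * frobM ρ v = frobM ρ v := by
  classical
  have hmul : ∀ j : F ≃ₐ[ℚ] F, (∀ x : 𝓞 F, j • x - x ∈ v.asIdeal) → ∀ s ∈ FrobSet v,
      j * s ∈ FrobSet v := by
    intro j hj s hs
    rw [frob_iff hp hpv]
    intro x
    have h1 := (frob_iff hp hpv s).1 hs x
    have h2 := v.asIdeal.add_mem (hj (s • x)) h1
    rwa [sub_add_sub_cancel, ← mul_smul] at h2
  let e : FrobSet v ≃ FrobSet v :=
    { toFun := fun s => ⟨j * s.1, hmul j hj s.1 s.2⟩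
      invFun := fun s => ⟨j⁻¹ * s.1, hmul j⁻¹ (frobM_inertia_aux hj) s.1 s.2⟩
      left_inv := fun s => by simp
      right_inv := fun s => by simp }
  let _ : Fintype (FrobSet v) := Fintype.ofFinite _
  unfold frobM
  rw [finsum_eq_sum_of_fintype, Matrix.mul_smul, Matrix.mul_sum]
  congr 1
  refine Fintype.sum_equiv e _ _ fun s => ?_
  show cM (ρ j) * cM (ρ s.1) = cM (ρ (j * s.1))
  rw [map_mul, cM_mul]

/-- the nonzero eigenvalues of the mean of the Frobenius automorphisms -/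
lemma frobM_eig (hp : p.Prime) (hpv : (p : 𝓞 F) ∈ v.asIdeal) [IsGalois ℚ F]
    (h4 : ∀ s : F ≃ₐ[ℚ] F, s ^ 4 = 1) {l : ℂ} (hl : l ≠ 0) {x : κ → ℂ} (hx : x ≠ 0)
    (h : (frobM ρ v).mulVec x = l • x) : l ^ 4 = 1 := by
  classical
  obtain ⟨s, hs⟩ := frob_nonempty v
  have h1 : ∀ j : F ≃ₐ[ℚ] F, (∀ x : 𝓞 F, j • x - x ∈ v.asIdeal) →
      (cM (ρ j)).mulVec x = x := by
    intro j hj
    have h2 := congrArg (fun M : Matrix κ κ ℂ => M.mulVec x) (frobM_inertia (ρ := ρ) hp hpv hj)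
    simp only [← Matrix.mulVec_mulVec, h, Matrix.mulVec_smul] at h2
    have h3 : l • ((cM (ρ j)).mulVec x - x) = 0 := by rw [smul_sub, h2, sub_self]
    exact sub_eq_zero.1 ((smul_eq_zero.1 h3).resolve_left hl)
  have h2 : ∀ τ ∈ FrobSet v, (cM (ρ τ)).mulVec x = (cM (ρ s)).mulVec x := by
    intro τ hτ
    have h3 : (cM (ρ (s⁻¹ * τ))).mulVec x = x := by
      apply h1
      intro z
      have h5 := v.asIdeal.sub_mem ((frob_iff hp hpv τ).1 hτ z) ((frob_iff hp hpv s).1 hs z)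
      rw [sub_sub_sub_cancel_right] at h5
      have h6 : s⁻¹ • (τ • z - s • z) ∈ v.asIdeal := by
        have h7 : s • v.asIdeal = v.asIdeal := frob_stab hs
        rw [← Ideal.mem_pointwise_smul_iff_inv_smul_mem, h7]
        exact h5
      rwa [smul_sub, inv_smul_smul, ← mul_smul] at h6
    have e : τ = s * (s⁻¹ * τ) := by group
    rw [e, map_mul, cM_mul, ← Matrix.mulVec_mulVec, h3]
  have h3 : (frobM ρ v).mulVec x = (cM (ρ s)).mulVec x := by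
    let _ : Fintype (FrobSet v) := Fintype.ofFinite _
    have hne : Nonempty (FrobSet v) := ⟨⟨s, hs⟩⟩
    unfold frobM
    rw [finsum_eq_sum_of_fintype, Matrix.smul_mulVec, Matrix.sum_mulVec,
      Finset.sum_congr rfl fun τ _ => h2 τ.1 τ.2, Finset.sum_const, Finset.card_univ,
      ← Nat.card_eq_fintype_card, ← Nat.cast_smul_eq_nsmul ℂ, smul_smul, inv_mul_cancel₀, one_smul]
    exact_mod_cast Nat.card_pos.ne'
  rw [h] at h3
  have h5 : Eig x (cM (ρ s)) l := h3.symm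
  have h6 : ∀ k : ℕ, cM (ρ s) ^ k = cM (ρ (s ^ k)) := by
    intro k
    induction k with
    | zero => rw [pow_zero, pow_zero, map_one, cM_one]
    | succ k ih => rw [pow_succ, pow_succ, map_mul, cM_mul, ih]
  have h7 := h5.pow 4
  rw [h6, h4, map_one, cM_one] at h7
  unfold Eig at h7
  rw [Matrix.one_mulVec] at h7
  have h8 : (1 - l ^ 4) • x = 0 := by rw [sub_smul, one_smul, ← h7, sub_self]
  have h9 := (smul_eq_zero.1 h8).resolve_right hx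
  linear_combination -h9

/-- the Euler factor is finite at the centre -/
theorem det_ne (hp : p.Prime) (hpv : (p : 𝓞 F) ∈ v.asIdeal) [IsGalois ℚ F]
    (h4 : ∀ s : F ≃ₐ[ℚ] F, s ^ 4 = 1) {m : ℕ} (hm : m ≤ 2 * p) :
    (1 - (((p : ℂ) - m) * (p : ℂ)⁻¹) • frobM ρ v + ((p : ℂ)⁻¹) • frobM ρ v ^ 2).det ≠ 0 := by
  intro h0
  have hp0 : (p : ℂ) ≠ 0 := by exact_mod_cast hp.ne_zero
  obtain ⟨α, β, hα, hβ⟩ := exists_ab (((p : ℂ) - m) * (p : ℂ)⁻¹) ((p : ℂ)⁻¹)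
  have hβ0 : α * β ≠ 0 := by rw [hβ]; exact inv_ne_zero hp0
  have key : ∀ γ : ℂ, γ ≠ 0 → (1 - γ • frobM ρ v).det = 0 → (1 - γ⁻¹ * α) * (1 - γ⁻¹ * β) ≠ 0 := by
    intro γ hγ hdet
    obtain ⟨x, hx, hx0⟩ := Matrix.exists_mulVec_eq_zero_iff.2 hdet
    rw [Matrix.sub_mulVec, Matrix.one_mulVec, Matrix.smul_mulVec, sub_eq_zero] at hx0
    have h1 : (frobM ρ v).mulVec x = γ⁻¹ • x := by
      have h2 := congrArg (fun z => γ⁻¹ • z) hx0
      simp only [smul_smul, inv_mul_cancel₀ hγ, one_smul] at h2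
      exact h2.symm
    have h2 := frobM_eig hp hpv h4 (inv_ne_zero hγ) hx h1
    have h3 := P_ne hp.two_le hm (Or.inl h2)
    have e : (1 - γ⁻¹ * α) * (1 - γ⁻¹ * β) = 1 - γ⁻¹ * (((p : ℂ) - m) * (p : ℂ)⁻¹) +
        γ⁻¹ ^ 2 * (p : ℂ)⁻¹ := by
      rw [← hα, ← hβ]
      ring
    rw [e]
    exact h3
  rw [← hα, ← hβ, quad_fac] at h0
  rcases mul_eq_zero.1 h0 with h1 | h1
  · have h2 := left_ne_zero_of_mul hβ0
    apply key α h2 h1
    rw [inv_mul_cancel₀ h2, sub_self, zero_mul]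
  · have h2 := right_ne_zero_of_mul hβ0
    apply key β h2 h1
    rw [inv_mul_cancel₀ h2, sub_self, mul_zero]

lemma diff_det {M : ℂ → Matrix κ κ ℂ} (h : ∀ i j, Differentiable ℂ (fun s => M s i j)) :
    Differentiable ℂ (fun s => (M s).det) := by
  simp only [Matrix.det_apply']
  refine Differentiable.fun_sum fun τ _ => ?_
  exact (differentiable_const _).mul (Differentiable.fun_finsetProd fun i _ => h _ _)

/-- the inverse of the Euler factor -/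
noncomputable def dQ (A : ℕ → ℂ) (N : ℕ) (ρ : (F ≃ₐ[ℚ] F) →* GL κ ℂ)
    (v : HeightOneSpectrum (𝓞 F)) (p : ℕ) (s : ℂ) : ℂ :=
  (1 - (A p * (p : ℂ) ^ (-s)) • frobM ρ v +
    (if p ∣ N then 0 else (p : ℂ) ^ (1 - 2 * s)) • frobM ρ v ^ 2).det

lemma dQ_diff (A : ℕ → ℂ) (N : ℕ) (v : HeightOneSpectrum (𝓞 F)) (hp : p.Prime) :
    Differentiable ℂ (dQ A N ρ v p) := by
  have hq0 : (p : ℂ) ≠ 0 := by exact_mod_cast hp.ne_zero
  have h1 : Differentiable ℂ (fun s : ℂ => (p : ℂ) ^ (-s)) := by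
    intro z
    exact (differentiableAt_id.neg).const_cpow (Or.inl hq0)
  have h2 : Differentiable ℂ (fun s : ℂ => (p : ℂ) ^ (1 - 2 * s)) := by
    intro z
    exact ((differentiableAt_const _).sub ((differentiableAt_const _).mul differentiableAt_id)).const_cpow
      (Or.inl hq0)
  have h3 : Differentiable ℂ (fun s : ℂ => if p ∣ N then (0 : ℂ) else (p : ℂ) ^ (1 - 2 * s)) := by
    by_cases h3 : p ∣ N
    · simp only [if_pos h3]
      exact differentiable_const _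
    · simp only [if_neg h3]
      exact h2
  refine diff_det fun i j => ?_
  simp only [Matrix.add_apply, Matrix.sub_apply, Matrix.smul_apply, smul_eq_mul]
  exact ((differentiable_const _).sub (((differentiable_const _).mul h1).mul
    (differentiable_const _))).add (h3.mul (differentiable_const _))

end ram

section fib

lemma exists_blw (h : IQ K σ δ) (w : HeightOneSpectrum (𝓞 K)) :
    ∃ p : Nat.Primes, ((p : ℕ) : 𝓞 K) ∈ w.asIdeal := by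
  obtain ⟨p, hp, h1, _⟩ := nv_cases h w
  exact ⟨⟨p, hp⟩, h1⟩

/-- the product over the places over the prime numbers -/
theorem hasProd_fib (h : IQ K σ δ) {f : HeightOneSpectrum (𝓞 K) → ℂ} {a : ℂ} (hf : HasProd f a) :
    HasProd (fun p : Nat.Primes => ∏ w ∈ Wp K p, f w) a := by
  classical
  choose blw hblw using exists_blw (K := K) h
  have hiff : ∀ w p, blw w = p ↔ w ∈ Wp K p := by
    intro w p
    rw [mem_Wp p.2]
    constructor
    · rintro rfl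
      exact hblw w
    · intro h1
      exact Subtype.ext (uniq_over (blw w).2 p.2 (hblw w) h1)
  have h1 := (Equiv.sigmaFiberEquiv blw).hasProd_iff.2 hf
  refine h1.sigma fun p => ?_
  let e : {w // blw w = p} ≃ {w // w ∈ Wp K p} := Equiv.subtypeEquivRight fun w => hiff w p
  let _ : Fintype {w // blw w = p} := Fintype.ofEquiv _ e.symm
  have h2 := hasProd_fintype (fun w : {w // blw w = p} => f w.1)
  have h3 : ∏ w ∈ Wp K p, f w = ∏ w : {w // blw w = p}, f w.1 := by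
    rw [← Finset.prod_coe_sort (Wp K p) f]
    exact (Fintype.prod_equiv e _ _ fun w => rfl).symm
  rw [h3]
  exact h2

end fib

section main

variable {𝒟 : Set (𝓞 K)} {N : ℕ} {a b n : 𝓞 K} {c : Ideal (𝓞 K) → ℂ} {A : ℕ → ℂ}
  {ρg ρh : (F ≃ₐ[ℚ] F) →* GL (Fin 2) ℂ} {ρ : (F ≃ₐ[ℚ] F) →* GL (Fin 2 × Fin 2) ℂ}

lemma KD.fin (hF : KD K 𝒟 F) : Finite ((F ≃ₐ[K] F) →* ℂ) := by
  classical
  refine Finite.of_injective (β := (F ≃ₐ[K] F) → Bool) (fun χ t => decide (χ t = 1)) ?_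
  intro χ χ' he
  apply MonoidHom.ext
  intro t
  have h1 : decide (χ t = 1) = decide (χ' t = 1) := congrFun he t
  obtain ⟨_, _, _, _, h2⟩ := hF.chi χ
  obtain ⟨_, _, _, _, h3⟩ := hF.chi χ'
  rcases h2 t with ⟨_, h4⟩ | ⟨_, h4⟩ <;> rcases h3 t with ⟨_, h5⟩ | ⟨_, h5⟩
  · rw [h4, h5]
  · exfalso
    rw [h4, h5] at h1
    norm_num at h1
  · exfalso
    rw [h4, h5] at h1
    norm_num at h1
  · rw [h4, h5]

/-- **The `L`-function of the triple product** -/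
theorem an_main (h : IQ K σ δ) [IsGalois ℚ F] (hF : KD K 𝒟 F)
    (h𝒟 : ∀ D ∈ 𝒟, D ≠ 0 ∧ (8 : 𝓞 K) ∣ D - 1 ∧
      (∀ w : HeightOneSpectrum (𝓞 K), 2 * (4 * a ^ 3 + 27 * b ^ 2) ∈ w.asIdeal →
        D - 1 ∈ w.asIdeal) ∧ NVD a b n c D)
    {m : ℤ} (hm : 2 * (4 * a ^ 3 + 27 * b ^ 2) = (m : 𝓞 K))
    (hc : ∀ v : HeightOneSpectrum (𝓞 K), 2 * (4 * a ^ 3 + 27 * b ^ 2) ∉ v.asIdeal →
      n ∉ v.asIdeal ∧ c v.asIdeal = (Ideal.absNorm v.asIdeal : ℂ) - pv a b v)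
    (hur : ∀ w : HeightOneSpectrum (𝓞 K), 2 * (4 * a ^ 3 + 27 * b ^ 2) ∈ w.asIdeal →
      ∀ p : ℕ, p.Prime → (p : 𝓞 K) ∈ w.asIdeal → (p : 𝓞 K) ∉ w.asIdeal ^ 2)
    (hn : n = (N : 𝓞 K))
    (hA : ∀ p : ℕ, p.Prime → ¬ (p : ℤ) ∣ m → ¬ p ∣ N ∧ ∃ k : ℕ, k ≤ 2 * p ∧ A p = p - k)
    (hc1 : ∀ p : ℕ, p.Prime → ∀ w : HeightOneSpectrum (𝓞 K), (p : 𝓞 K) ∈ w.asIdeal →
      Ideal.absNorm w.asIdeal = p → c w.asIdeal = A p)
    (hc2 : ∀ p : ℕ, p.Prime → ∀ w : HeightOneSpectrum (𝓞 K), (p : 𝓞 K) ∈ w.asIdeal →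
      Ideal.absNorm w.asIdeal = p ^ 2 → c w.asIdeal = A p ^ 2 - (if p ∣ N then 0 else 2 * (p : ℂ)))
    (hg : ∀ s : F ≃ₐ[ℚ] F, ¬ Fx K s → (cM (ρg s)).trace = 0)
    (hρ : ∀ s α, (1 - α • cM (ρ s)).det = kp (cM (ρg s)).trace (cM (ρg s)).det
      (cM (ρh s)).trace (cM (ρh s)).det α) :
    ∃ L : ℂ → ℂ, MeromorphicOn L Set.univ ∧
      (∀ V : Nat.Primes → HeightOneSpectrum (𝓞 F),
        (∀ p : Nat.Primes, ((p : ℕ) : 𝓞 F) ∈ (V p).asIdeal) → ∀ s : ℂ, 2 < s.re →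
        HasProd (fun p : Nat.Primes => eulQ A N ρ (V p) s p) (L s)) ∧
      AnalyticAt ℂ L 1 ∧ L 1 ≠ 0 := by
  classical
  obtain ⟨b1, χ, hb⟩ := exists_eig' hF.comm (ρg.comp (inc K F))
  obtain ⟨b2, μ, hb'⟩ := exists_eig' hF.comm (ρh.comp (inc K F))
  have hfin := hF.fin
  choose D hD𝒟 y hy hχ using hF.chi
  let B : Fin 2 → 𝓞 K := fun i => D (χ 0 * μ i)
  have hDa : Da K F χ μ B (fun i => y (χ 0 * μ i)) :=
    ⟨fun i => (h𝒟 _ (hD𝒟 _)).2.1, fun i => hy _, fun i t => hχ (χ 0 * μ i) t⟩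
  -- the exceptional primes
  let S0 : Set Nat.Primes := {p | (∃ w : HeightOneSpectrum (𝓞 K), ((p : ℕ) : 𝓞 K) ∈ w.asIdeal ∧
    ((p : ℕ) : 𝓞 K) ∈ w.asIdeal ^ 2) ∨ ∃ ψ, ∃ w : HeightOneSpectrum (𝓞 K),
      ((p : ℕ) : 𝓞 K) ∈ w.asIdeal ∧ D ψ ∈ w.asIdeal}
  have hS0 : S0.Finite := by
    have h1 : ((fun p : Nat.Primes => (p : ℕ)) ⁻¹' ({p : ℕ | p.Prime ∧
        ∃ w : HeightOneSpectrum (𝓞 K), (p : 𝓞 K) ∈ w.asIdeal ∧ (p : 𝓞 K) ∈ w.asIdeal ^ 2} ∪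
        ⋃ ψ, {p : ℕ | p.Prime ∧ ∃ w : HeightOneSpectrum (𝓞 K), (p : 𝓞 K) ∈ w.asIdeal ∧
          D ψ ∈ w.asIdeal})).Finite := by
      refine Set.Finite.preimage (Set.injOn_of_injective fun a b h => Subtype.ext h) ?_
      refine (ram_fin h).union (Set.finite_iUnion fun ψ => ?_)
      exact bad_fin h (h𝒟 _ (hD𝒟 ψ)).1
    refine h1.subset ?_
    rintro p (⟨w, h2, h3⟩ | ⟨ψ, w, h2, h3⟩)
    · exact Or.inl ⟨p.2, w, h2, h3⟩
    · exact Or.inr (Set.mem_iUnion.2 ⟨ψ, p.2, w, h2, h3⟩)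
  let S : Finset Nat.Primes := hS0.toFinset
  have hS : ∀ p, p ∈ S ↔ p ∈ S0 := fun p => Set.Finite.mem_toFinset _
  have hgood : ∀ p ∈ S, ¬ ((p : ℕ) : ℤ) ∣ m := by
    intro p hp hpm
    obtain ⟨w, hw1, hw2⟩ : ∃ w : HeightOneSpectrum (𝓞 K), ((p : ℕ) : 𝓞 K) ∈ w.asIdeal ∧
        2 * (4 * a ^ 3 + 27 * b ^ 2) ∉ w.asIdeal := by
      rcases (hS p).1 hp with ⟨w, h1, h2⟩ | ⟨ψ, w, h1, h2⟩
      · exact ⟨w, h1, fun h3 => hur w h3 p p.2 h1 h2⟩
      · refine ⟨w, h1, fun h3 => ?_⟩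
        have h4 := w.asIdeal.sub_mem h2 ((h𝒟 _ (hD𝒟 ψ)).2.2.1 w h3)
        rw [sub_sub_cancel] at h4
        exact w.isPrime.ne_top ((Ideal.eq_top_iff_one _).2 h4)
    apply hw2
    rw [hm]
    exact (int_mem p.2 hw1).2 hpm
  have hgw : ∀ p ∈ S, ∀ w ∈ Wp K p, 2 * (4 * a ^ 3 + 27 * b ^ 2) ∉ w.asIdeal := by
    intro p hp w hw h1
    rw [hm] at h1
    exact hgood p hp ((int_mem p.2 ((mem_Wp p.2).1 hw)).1 h1)
  have hG : ∀ i, ∃ G : ℂ → ℂ, Differentiable ℂ G ∧ (∀ s : ℂ, 2 < s.re →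
      HasProd (fun w => (Pf n c (B i) w s)⁻¹) (G s)) ∧ G 1 ≠ 0 := by
    intro i
    obtain ⟨G, h1, h2, h3⟩ := (h𝒟 _ (hD𝒟 (χ 0 * μ i))).2.2.2
    refine ⟨G, h1, fun s hs => ?_, h3⟩
    refine (h2 s hs).congr_fun fun w => ?_
    exact (efD_eq hc (h𝒟 _ (hD𝒟 (χ 0 * μ i))).2.2.1 s w).symm
  choose G hG1 hG2 hG3 using hG
  choose V₀ hV₀ using fun p : Nat.Primes => exists_place (K := F) p.2
  let R : Nat.Primes → ℂ → ℂ := fun p s => (dQ A N ρ (V₀ p) p s)⁻¹ *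
    ∏ w ∈ Wp K p, ∏ i, Pf n c (B i) w s
  have hPd : ∀ p : Nat.Primes, Differentiable ℂ (fun s => ∏ w ∈ Wp K p, ∏ i, Pf n c (B i) w s) :=
    fun p => Differentiable.fun_finsetProd fun w _ => Differentiable.fun_finsetProd fun i _ =>
      Pf_diff n c (B i) w
  have hGd : Differentiable ℂ (fun s => ∏ i, G i s) :=
    Differentiable.fun_finsetProd fun i _ => hG1 i
  have hdQ : ∀ p ∈ S, dQ A N ρ (V₀ p) p 1 ≠ 0 := by
    intro p hp
    obtain ⟨hN, k, hk, hAp⟩ := hA p p.2 (hgood p hp)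
    unfold dQ
    rw [if_neg hN, hAp, Complex.cpow_neg_one, show (1 - 2 * 1 : ℂ) = -1 by norm_num,
      Complex.cpow_neg_one]
    exact det_ne p.2 (hV₀ p) (fun s => hF.four h s) hk
  refine ⟨fun s => (∏ p ∈ S, R p s) * ∏ i, G i s, ?_, ?_, ?_, ?_⟩
  · intro z _
    refine MeromorphicAt.mul ?_ (hGd.analyticAt z).meromorphicAt
    refine MeromorphicAt.fun_prod fun p _ => ?_
    exact ((dQ_diff A N (V₀ p) p.2).analyticAt z).meromorphicAt.inv.mul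
      ((hPd p).analyticAt z).meromorphicAt
  · intro V hV s hs
    have h1 : HasProd (fun w => ∏ i, (Pf n c (B i) w s)⁻¹) (∏ i, G i s) :=
      hasProd_prod fun i _ => hG2 i s hs
    have h2 := hasProd_fib h h1
    have h4 : HasProd (fun p : Nat.Primes => if p ∈ S then R p s else 1) (∏ p ∈ S, R p s) := by
      have h6 := hasProd_prod_of_ne_finset_one (L := .unconditional _) (s := S)
        (f := fun p : Nat.Primes => if p ∈ S then R p s else 1) (fun p hp => if_neg hp)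
      rw [Finset.prod_congr rfl (fun p hp => if_pos hp)] at h6
      exact h6
    refine (h4.mul h2).congr_fun fun p => ?_
    have e : ∏ w ∈ Wp K p, ∏ i, (Pf n c (B i) w s)⁻¹ = (∏ w ∈ Wp K p, ∏ i, Pf n c (B i) w s)⁻¹ := by
      rw [← Finset.prod_inv_distrib]
      exact Finset.prod_congr rfl fun w _ => Finset.prod_inv_distrib _
    by_cases hp : p ∈ S
    · rw [if_pos hp, e, mul_assoc, mul_inv_cancel₀, mul_one]
      · exact eulQ_place A N ρ p.2 (hV₀ p) (hV p) s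
      · refine Finset.prod_ne_zero_iff.2 fun w hw => Finset.prod_ne_zero_iff.2 fun i _ => ?_
        obtain ⟨h5, h6⟩ := hc w (hgw p hp w hw)
        exact Pf_ne (B i) h5 h6 hs
    · rw [if_neg hp, one_mul, e]
      have hp0 : p ∉ S0 := fun h5 => hp ((hS p).2 h5)
      refine eul_unram h hF hg hρ hb hb' hDa p.2 (hV p) ?_ ?_ ?_ hn (hc1 p p.2) (hc2 p p.2) s
      · exact fun w h5 h6 => hp0 (Or.inl ⟨w, h5, h6⟩)
      · exact fun w h5 i h6 => hp0 (Or.inr ⟨_, w, h5, h6⟩)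
      · exact fun ψ => ⟨D ψ, y ψ, (h𝒟 _ (hD𝒟 ψ)).2.1, fun w h5 h6 => hp0 (Or.inr ⟨ψ, w, h5, h6⟩),
          hy ψ, hχ ψ⟩
  · refine AnalyticAt.mul ?_ (hGd.analyticAt 1)
    refine Finset.analyticAt_fun_prod _ fun p hp => ?_
    exact (((dQ_diff A N (V₀ p) p.2).analyticAt 1).inv (hdQ p hp)).mul ((hPd p).analyticAt 1)
  · refine mul_ne_zero (Finset.prod_ne_zero_iff.2 fun p hp => mul_ne_zero
      (inv_ne_zero (hdQ p hp)) ?_) (Finset.prod_ne_zero_iff.2 fun i _ => hG3 i)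
    refine Finset.prod_ne_zero_iff.2 fun w hw => Finset.prod_ne_zero_iff.2 fun i _ => ?_
    obtain ⟨h5, h6⟩ := hc w (hgw p hp w hw)
    exact Pf_ne_one (B i) h5 h6

end main

end Pool.Agent.K4H15.BZ
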