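import Pool.Agent.K4H15.BW.Twi

/-!
The primes of the imaginary quadratic field.
-/

set_option autoImplicit false

namespace Pool.Agent.K4H15.BZ

open NumberField IsDedekindDomain
open Pool.Agent.K4H55.BI (IQ sym gen gen_span gen_dvd gen_prime gen_na)
open Pool.Agent.K4H55.BD (tau tv tau_tau tau_int mul_tau mem_tv res_int int_mem norm_gen nv_cases
  uniq_over two_notMem pv pv_twist fin_over norm_eq char_ne_two)

variable {K : Type} [Field K] [NumberField K] {σ : K →+* ℂ} {δ : K}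

lemma card_quot (w : HeightOneSpectrum (𝓞 K)) : Nat.card (𝓞 K ⧸ w.asIdeal) = Ideal.absNorm w.asIdeal := by
  rw [Ideal.absNorm_apply, Submodule.cardQuot_apply]

/-- the residue field of degree two is not covered by `ℤ` -/
lemma not_int {p : ℕ} (hp : p.Prime) {w : HeightOneSpectrum (𝓞 K)} (hpw : (p : 𝓞 K) ∈ w.asIdeal)
    (hN : Ideal.absNorm w.asIdeal = p ^ 2) : ¬ ∀ x : 𝓞 K, ∃ m : ℤ, x - m ∈ w.asIdeal := by
  intro hall
  have : NeZero p := ⟨hp.ne_zero⟩
  have hfin : Finite (𝓞 K ⧸ w.asIdeal) := Ideal.finiteQuotientOfFreeOfNeBot _ w.ne_bot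
  have hq0 : (p : 𝓞 K ⧸ w.asIdeal) = 0 := by
    have := (Ideal.Quotient.eq_zero_iff_mem (I := w.asIdeal)).2 hpw
    rwa [map_natCast] at this
  have hnt : Nontrivial (𝓞 K ⧸ w.asIdeal) := Ideal.Quotient.nontrivial_iff.2 w.isPrime.ne_top
  have hchar : CharP (𝓞 K ⧸ w.asIdeal) p := (CharP.charP_iff_prime_eq_zero hp).2 hq0
  have hsur : Function.Surjective (ZMod.castHom (dvd_refl p) (𝓞 K ⧸ w.asIdeal)) := by
    intro z
    obtain ⟨x, rfl⟩ := Ideal.Quotient.mk_surjective z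
    obtain ⟨m, hm⟩ := hall x
    refine ⟨(m : ZMod p), ?_⟩
    rw [map_intCast]
    rw [← Ideal.Quotient.eq_zero_iff_mem, map_sub, map_intCast, sub_eq_zero] at hm
    exact hm.symm
  have h1 := Nat.card_le_card_of_surjective _ hsur
  rw [card_quot, hN, Nat.card_zmod] at h1
  nlinarith [hp.two_le]

/-- unramified primes -/
lemma unr_of (h : IQ K σ δ) {p : ℕ} (hp : p.Prime) {w : HeightOneSpectrum (𝓞 K)}
    (hpw : (p : 𝓞 K) ∈ w.asIdeal) (hr : (p : 𝓞 K) ∉ w.asIdeal ^ 2) :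
    ∃ x : 𝓞 K, x - tau h x ∉ w.asIdeal := by
  have := h.pid
  by_contra hcon
  push Not at hcon
  obtain ⟨p', hp', hpw', hN⟩ := nv_cases h w
  obtain rfl := uniq_over hp' hp hpw' hpw
  rcases hN with hN | hN
  · apply hr
    have h1 := norm_gen h w
    rw [hN] at h1
    rw [← h1, pow_two]
    have h2 : gen w ∈ w.asIdeal := gen_dvd.1 (dvd_refl (gen w))
    refine Ideal.mul_mem_mul h2 ?_
    have h4 := w.asIdeal.sub_mem h2 (hcon (gen w))
    rwa [sub_sub_cancel] at h4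
  · apply not_int hp hpw hN
    intro x
    have h1 : x ^ 2 - ((Algebra.norm ℤ x : ℤ) : 𝓞 K) ∈ w.asIdeal := by
      rw [← mul_tau h, show x ^ 2 - x * tau h x = x * (x - tau h x) by ring]
      exact w.asIdeal.mul_mem_left _ (hcon x)
    by_cases hp2 : p' = 2
    · refine ⟨Algebra.norm ℤ x, ?_⟩
      set m := Algebra.norm ℤ x with hm
      apply w.isPrime.mem_of_pow_mem 2
      have h2 : (2 : 𝓞 K) ∈ w.asIdeal := by
        have := hpw
        rw [hp2] at this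
        exact_mod_cast this
      obtain ⟨k, hk⟩ : (2 : ℤ) ∣ m * (m - 1) := by
        rcases Int.even_or_odd m with h3 | h3
        · exact (even_iff_two_dvd.1 h3).mul_right _
        · exact (even_iff_two_dvd.1 (h3.sub_odd odd_one)).mul_left _
      have h3 : ((m * (m - 1) : ℤ) : 𝓞 K) ∈ w.asIdeal := by
        rw [hk]
        push_cast
        exact w.asIdeal.mul_mem_right _ h2
      have e : (x - (m : 𝓞 K)) ^ 2 = (x ^ 2 - (m : 𝓞 K)) + ((m * (m - 1) : ℤ) : 𝓞 K) +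
          2 * ((m : 𝓞 K) - x * m) := by
        push_cast
        ring
      rw [e]
      exact w.asIdeal.add_mem (w.asIdeal.add_mem h1 h3) (w.asIdeal.mul_mem_right _ h2)
    · have h2 := two_notMem hp hp2 hpw
      have hodd : Odd p' := hp.odd_of_ne_two hp2
      obtain ⟨k, hk⟩ := hodd
      refine ⟨Algebra.trace ℤ (𝓞 K) x * (k + 1), ?_⟩
      have h3 : 2 * (x - ((Algebra.trace ℤ (𝓞 K) x * (k + 1) : ℤ) : 𝓞 K)) ∈ w.asIdeal := by
        have e1 : tau h x = ((Algebra.trace ℤ (𝓞 K) x : ℤ) : 𝓞 K) - x := rfl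
        have e : 2 * (x - ((Algebra.trace ℤ (𝓞 K) x * (k + 1) : ℤ) : 𝓞 K)) =
            (x - tau h x) - ((Algebra.trace ℤ (𝓞 K) x : ℤ) : 𝓞 K) * ((p' : ℕ) : 𝓞 K) := by
          rw [e1, hk]
          push_cast
          ring
        rw [e]
        exact w.asIdeal.sub_mem (hcon x) (w.asIdeal.mul_mem_left _ hpw)
      exact (w.isPrime.mem_or_mem h3).resolve_left h2

lemma sub_tau_split (h : IQ K σ δ) {p : ℕ} (hp : p.Prime) {w : HeightOneSpectrum (𝓞 K)}
    (hN : Ideal.absNorm w.asIdeal = p) (hst : ∀ x ∈ w.asIdeal, tau h x ∈ w.asIdeal) (x : 𝓞 K) :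
    x - tau h x ∈ w.asIdeal := by
  obtain ⟨m, hm⟩ := res_int hp hN x
  have h1 := hst _ hm
  rw [map_sub, tau_int] at h1
  have h2 := w.asIdeal.sub_mem hm h1
  rwa [sub_sub_sub_cancel_right] at h2

/-- split primes -/
lemma split_ne (h : IQ K σ δ) {p : ℕ} (hp : p.Prime) {w : HeightOneSpectrum (𝓞 K)}
    (hpw : (p : 𝓞 K) ∈ w.asIdeal) (hr : (p : 𝓞 K) ∉ w.asIdeal ^ 2)
    (hN : Ideal.absNorm w.asIdeal = p) : tv h w ≠ w := by
  intro he
  obtain ⟨x, hx⟩ := unr_of h hp hpw hr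
  apply hx
  refine sub_tau_split h hp hN (fun y hy => ?_) x
  rw [← mem_tv, he]
  exact hy

lemma split_all (h : IQ K σ δ) {p : ℕ} {w w' : HeightOneSpectrum (𝓞 K)}
    (hN : Ideal.absNorm w.asIdeal = p) (hw : (p : 𝓞 K) ∈ w'.asIdeal) : w' = w ∨ w' = tv h w := by
  have := h.pid
  have h1 := norm_gen h w
  rw [hN] at h1
  rw [← h1] at hw
  rcases w'.isPrime.mem_or_mem hw with h2 | h2
  · left
    exact gen_na (gen_dvd.2 h2)
  · right
    have h3 : gen w ∈ (tv h w').asIdeal := h2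
    have h4 : tv h w' = w := gen_na (gen_dvd.2 h3)
    rw [← h4]
    apply HeightOneSpectrum.ext
    ext x
    rw [mem_tv, mem_tv, tau_tau]

lemma norm_p (h : IQ K σ δ) (p : ℕ) : Ideal.absNorm (Ideal.span {(p : 𝓞 K)}) = p ^ 2 := by
  have h4 := norm_eq h (p : 𝓞 K)
  have h5 : Algebra.norm ℤ ((p : ℕ) : 𝓞 K) = (p : ℤ) ^ 2 := by
    have h6 := mul_tau h (p : 𝓞 K)
    rw [map_natCast] at h6
    have h7 : (((p : ℤ) ^ 2 : ℤ) : 𝓞 K) = ((Algebra.norm ℤ ((p : ℕ) : 𝓞 K) : ℤ) : 𝓞 K) := by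
      rw [← h6]
      push_cast
      ring
    exact (Int.cast_injective h7).symm
  rw [h5] at h4
  exact_mod_cast h4.symm

/-- inert primes -/
lemma inert_span (h : IQ K σ δ) {p : ℕ} (hp : p.Prime) {w : HeightOneSpectrum (𝓞 K)}
    (hpw : (p : 𝓞 K) ∈ w.asIdeal) (hN : Ideal.absNorm w.asIdeal = p ^ 2) :
    w.asIdeal = Ideal.span {(p : 𝓞 K)} := by
  have h1 : w.asIdeal ∣ Ideal.span {(p : 𝓞 K)} := by
    rw [Ideal.dvd_span_singleton]
    exact hpw
  obtain ⟨J, hJ⟩ := h1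
  have h2 := congrArg Ideal.absNorm hJ
  rw [norm_p h, map_mul, hN] at h2
  have h3 : Ideal.absNorm J = 1 := by
    have : 0 < p ^ 2 := pow_pos hp.pos 2
    exact (Nat.eq_of_mul_eq_mul_left this (by rw [← h2, mul_one])).symm
  rw [Ideal.absNorm_eq_one_iff] at h3
  rw [hJ, h3, Ideal.mul_top]

lemma inert_all (h : IQ K σ δ) {p : ℕ} (hp : p.Prime) {w w' : HeightOneSpectrum (𝓞 K)}
    (hpw : (p : 𝓞 K) ∈ w.asIdeal) (hN : Ideal.absNorm w.asIdeal = p ^ 2)
    (hw : (p : 𝓞 K) ∈ w'.asIdeal) : w' = w := by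
  apply HeightOneSpectrum.ext
  symm
  refine w.isMaximal.eq_of_le w'.isPrime.ne_top ?_
  rw [inert_span h hp hpw hN, Ideal.span_singleton_le_iff_mem]
  exact hw

/-- ramified primes -/
lemma ram_sub (h : IQ K σ δ) {p : ℕ} (hp : p.Prime) {w : HeightOneSpectrum (𝓞 K)}
    (hpw : (p : 𝓞 K) ∈ w.asIdeal) (hr : (p : 𝓞 K) ∈ w.asIdeal ^ 2) (x : 𝓞 K) :
    x - tau h x ∈ w.asIdeal := by
  have := h.pid
  obtain ⟨p', hp', hpw', hN⟩ := nv_cases h w
  obtain rfl := uniq_over hp' hp hpw' hpw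
  rcases hN with hN | hN
  · refine sub_tau_split h hp hN (fun y hy => ?_) x
    have h1 := norm_gen h w
    rw [hN] at h1
    have h2 : w.asIdeal ^ 2 = Ideal.span {gen w ^ 2} := by
      rw [← Ideal.span_singleton_pow, gen_span]
    rw [h2, Ideal.mem_span_singleton, ← h1, pow_two] at hr
    have hg0 : gen w ≠ 0 := (gen_prime w).ne_zero
    have h4 : tau h (gen w) ∈ w.asIdeal := gen_dvd.1 ((mul_dvd_mul_iff_left hg0).1 hr)
    obtain ⟨y, rfl⟩ := gen_dvd.2 hy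
    rw [map_mul]
    exact w.asIdeal.mul_mem_right _ h4
  · exfalso
    rw [inert_span h hp hpw hN, pow_two, Ideal.span_singleton_mul_span_singleton,
      Ideal.mem_span_singleton] at hr
    have hp0 : ((p' : ℕ) : 𝓞 K) ≠ 0 := by exact_mod_cast hp.ne_zero
    obtain ⟨z, hz⟩ := hr
    have h1 : ((p' : ℕ) : 𝓞 K) * (((p' : ℕ) : 𝓞 K) * z) = ((p' : ℕ) : 𝓞 K) * 1 := by
      rw [mul_one]
      linear_combination -hz
    have h2 := mul_left_cancel₀ hp0 h1
    apply w.isPrime.ne_top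
    rw [Ideal.eq_top_iff_one, ← h2]
    exact w.asIdeal.mul_mem_right _ hpw

/-- there is an element that is not fixed by the conjugation -/
lemma exists_moved (h : IQ K σ δ) : ∃ x : 𝓞 K, x - tau h x ≠ 0 := by
  obtain ⟨x, hx⟩ := h.cplx
  by_contra hcon
  push Not at hcon
  apply hx
  obtain ⟨a, b, hb, rfl⟩ := IsFractionRing.div_surjective (A := 𝓞 K) x
  have h1 : ∀ y : 𝓞 K, (starRingEnd ℂ) (σ (algebraMap (𝓞 K) K y)) = σ (algebraMap (𝓞 K) K y) := by
    intro y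
    have h2 := Pool.Agent.K4H55.BD.sg_tau h y
    rw [← sub_eq_zero.1 (hcon y)] at h2
    exact h2.symm
  rw [map_div₀, map_div₀, h1, h1]

/-- the ramified primes are finite in number -/
lemma ram_fin (h : IQ K σ δ) : {p : ℕ | p.Prime ∧ ∃ w : HeightOneSpectrum (𝓞 K),
    (p : 𝓞 K) ∈ w.asIdeal ∧ (p : 𝓞 K) ∈ w.asIdeal ^ 2}.Finite := by
  obtain ⟨x, hx⟩ := exists_moved h
  refine (Pool.Agent.K4H55.BD.bad_fin h hx).subset ?_
  rintro p ⟨hp, w, hw, hr⟩
  exact ⟨hp, w, hw, ram_sub h hp hw hr x⟩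

section power

variable {p : ℕ} {w : HeightOneSpectrum (𝓞 K)}

/-- Fermat -/
lemma pow_split (hp : p.Prime) (hN : Ideal.absNorm w.asIdeal = p) (x : 𝓞 K) :
    x ^ p - x ∈ w.asIdeal := by
  classical
  have hmax : w.asIdeal.IsMaximal := w.isMaximal
  letI : Field (𝓞 K ⧸ w.asIdeal) := Ideal.Quotient.field w.asIdeal
  have hfin : Finite (𝓞 K ⧸ w.asIdeal) := Ideal.finiteQuotientOfFreeOfNeBot _ w.ne_bot
  letI : Fintype (𝓞 K ⧸ w.asIdeal) := Fintype.ofFinite _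
  have hcard : Fintype.card (𝓞 K ⧸ w.asIdeal) = p := by
    rw [← Nat.card_eq_fintype_card, card_quot, hN]
  rw [← Ideal.Quotient.eq_zero_iff_mem, map_sub, map_pow, sub_eq_zero]
  have := FiniteField.pow_card (Ideal.Quotient.mk w.asIdeal x)
  rwa [hcard] at this

lemma pow_inert (hp : p.Prime) (hN : Ideal.absNorm w.asIdeal = p ^ 2) :
    ∃ x : 𝓞 K, x ^ p - x ∉ w.asIdeal := by
  classical
  by_contra hcon
  push Not at hcon
  have hmax : w.asIdeal.IsMaximal := w.isMaximal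
  letI : Field (𝓞 K ⧸ w.asIdeal) := Ideal.Quotient.field w.asIdeal
  have hfin : Finite (𝓞 K ⧸ w.asIdeal) := Ideal.finiteQuotientOfFreeOfNeBot _ w.ne_bot
  letI : Fintype (𝓞 K ⧸ w.asIdeal) := Fintype.ofFinite _
  have hcard : Fintype.card (𝓞 K ⧸ w.asIdeal) = p ^ 2 := by
    rw [← Nat.card_eq_fintype_card, card_quot, hN]
  have h1 : ∀ z : 𝓞 K ⧸ w.asIdeal, z ^ p = z := by
    intro z
    obtain ⟨x, rfl⟩ := Ideal.Quotient.mk_surjective z
    rw [← sub_eq_zero, ← map_pow, ← map_sub, Ideal.Quotient.eq_zero_iff_mem]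
    exact hcon x
  have h0 : (Polynomial.X ^ p - Polynomial.X : Polynomial (𝓞 K ⧸ w.asIdeal)) ≠ 0 :=
    FiniteField.X_pow_card_sub_X_ne_zero _ hp.one_lt
  have h2 := Polynomial.card_le_degree_of_subset_roots
    (p := (Polynomial.X ^ p - Polynomial.X : Polynomial (𝓞 K ⧸ w.asIdeal)))
    (Z := (Finset.univ : Finset (𝓞 K ⧸ w.asIdeal))) (fun z _ => by
      rw [Polynomial.mem_roots h0, Polynomial.IsRoot.def, Polynomial.eval_sub,
        Polynomial.eval_pow, Polynomial.eval_X, h1, sub_self])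
  rw [Finset.card_univ, hcard, FiniteField.X_pow_card_sub_X_natDegree_eq _ hp.one_lt] at h2
  nlinarith [hp.two_le]

/-- Euler's criterion -/
lemma euler_crit (h2 : (2 : 𝓞 K) ∉ w.asIdeal) {B : 𝓞 K} (hB : B ∉ w.asIdeal) :
    (B ^ (Ideal.absNorm w.asIdeal / 2) - 1 ∈ w.asIdeal ↔ sym w B = 1) ∧
    (sym w B = 1 ∨ sym w B = -1) ∧ Ideal.absNorm w.asIdeal % 2 = 1 := by
  classical
  have hmax : w.asIdeal.IsMaximal := w.isMaximal
  letI : Field (𝓞 K ⧸ w.asIdeal) := Ideal.Quotient.field w.asIdeal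
  have hfin : Finite (𝓞 K ⧸ w.asIdeal) := Ideal.finiteQuotientOfFreeOfNeBot _ w.ne_bot
  letI : Fintype (𝓞 K ⧸ w.asIdeal) := Fintype.ofFinite _
  have hcard : Fintype.card (𝓞 K ⧸ w.asIdeal) = Ideal.absNorm w.asIdeal := by
    rw [← Nat.card_eq_fintype_card, card_quot]
  have hB0 : (Ideal.Quotient.mk w.asIdeal B) ≠ 0 := by
    rwa [Ne, Ideal.Quotient.eq_zero_iff_mem]
  have h3 := FiniteField.isSquare_iff (char_ne_two h2) hB0
  rw [hcard] at h3
  have h4 : (∃ y, B - y ^ 2 ∈ w.asIdeal) ↔ IsSquare (Ideal.Quotient.mk w.asIdeal B) := by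
    constructor
    · rintro ⟨y, hy⟩
      refine ⟨Ideal.Quotient.mk w.asIdeal y, ?_⟩
      rw [← Ideal.Quotient.eq_zero_iff_mem, map_sub, map_pow, sub_eq_zero] at hy
      rw [hy, sq]
    · rintro ⟨z, hz⟩
      obtain ⟨y, rfl⟩ := Ideal.Quotient.mk_surjective z
      refine ⟨y, ?_⟩
      rw [← Ideal.Quotient.eq_zero_iff_mem, map_sub, map_pow, hz, sq, sub_self]
  have h5 : B ^ (Ideal.absNorm w.asIdeal / 2) - 1 ∈ w.asIdeal ↔ ∃ y, B - y ^ 2 ∈ w.asIdeal := by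
    rw [h4, h3, ← Ideal.Quotient.eq_zero_iff_mem, map_sub, map_pow, map_one, sub_eq_zero]
  refine ⟨?_, ?_, ?_⟩
  · rw [h5]
    unfold sym
    rw [if_neg hB]
    constructor
    · intro h6
      rw [if_pos h6]
    · intro h6
      by_contra h7
      rw [if_neg h7] at h6
      norm_num at h6
  · unfold sym
    rw [if_neg hB]
    by_cases h6 : ∃ y, B - y ^ 2 ∈ w.asIdeal
    · left; rw [if_pos h6]
    · right; rw [if_neg h6]
  · rw [← hcard]
    exact FiniteField.odd_card_of_char_ne_two (char_ne_two h2)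

end power

section lam

open Classical in
/-- the symbol, with the value `1` at the places over two -/
noncomputable def lam (w : HeightOneSpectrum (𝓞 K)) (B : 𝓞 K) : ℂ :=
  if (2 : 𝓞 K) ∈ w.asIdeal then 1 else sym w B

lemma lam_cases (w : HeightOneSpectrum (𝓞 K)) (B : 𝓞 K) :
    lam w B = 0 ∨ lam w B = 1 ∨ lam w B = -1 := by
  classical
  unfold lam sym
  split_ifs <;> simp

/-- the inverse of the Euler factor -/
noncomputable def Pf (n : 𝓞 K) (c : Ideal (𝓞 K) → ℂ) (B : 𝓞 K) (w : HeightOneSpectrum (𝓞 K))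
    (s : ℂ) : ℂ :=
  1 - lam w B * (c w.asIdeal * (Ideal.absNorm w.asIdeal : ℂ) ^ (-s)) +
    lam w B ^ 2 * (open Classical in if n ∈ w.asIdeal then 0 else
      (Ideal.absNorm w.asIdeal : ℂ) ^ (1 - 2 * s))

theorem efD_eq {a b n : 𝓞 K} {c : Ideal (𝓞 K) → ℂ}
    (hc : ∀ v : HeightOneSpectrum (𝓞 K), 2 * (4 * a ^ 3 + 27 * b ^ 2) ∉ v.asIdeal →
      n ∉ v.asIdeal ∧ c v.asIdeal = (Ideal.absNorm v.asIdeal : ℂ) - pv a b v) {B : 𝓞 K}
    (hB : ∀ v : HeightOneSpectrum (𝓞 K), 2 * (4 * a ^ 3 + 27 * b ^ 2) ∈ v.asIdeal →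
      B - 1 ∈ v.asIdeal) (s : ℂ) (w : HeightOneSpectrum (𝓞 K)) :
    BW.efD a b n c B s w = (Pf n c B w s)⁻¹ := by
  classical
  unfold BW.efD Pf
  by_cases h1 : 2 * (4 * a ^ 3 + 27 * b ^ 2) ∈ w.asIdeal
  · rw [if_pos h1]
    have h2 : lam w B = 1 := by
      unfold lam
      by_cases h3 : (2 : 𝓞 K) ∈ w.asIdeal
      · rw [if_pos h3]
      · rw [if_neg h3]
        unfold sym
        rw [if_neg fun h4 => ?_, if_pos ⟨1, by rw [one_pow]; exact hB w h1⟩]
        have h5 := w.asIdeal.sub_mem h4 (hB w h1)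
        rw [sub_sub_cancel] at h5
        exact w.isPrime.ne_top ((Ideal.eq_top_iff_one _).2 h5)
    rw [h2, one_pow, one_mul, one_mul]
  · rw [if_neg h1]
    have h2v : (2 : 𝓞 K) ∉ w.asIdeal := fun h4 => h1 (Ideal.mul_mem_right _ _ h4)
    have hl : lam w B = sym w B := by
      unfold lam
      rw [if_neg h2v]
    by_cases h2 : B ∈ w.asIdeal
    · rw [if_pos h2]
      have h4 : lam w B = 0 := by
        rw [hl]
        unfold sym
        rw [if_pos h2]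
      rw [h4]
      simp
    · rw [if_neg h2]
      have h5 : lam w B ^ 2 = 1 := by
        rw [hl]
        rcases (euler_crit h2v h2).2.1 with h6 | h6 <;> rw [h6] <;> norm_num
      rw [h5, one_mul, if_neg (hc w h1).1, (hc w h1).2, pv_twist h2v a b h2, hl]
      ring_nf

/-- the number of the affine points is at most `2 q` -/
lemma card_pts {R : Type} [Field R] [Finite R] (a b : R) :
    Nat.card {x : R × R // x.2 ^ 2 = x.1 ^ 3 + a * x.1 + b} ≤ 2 * Nat.card R := by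
  classical
  let r : R → R := fun x => if h : ∃ y, y ^ 2 = x ^ 3 + a * x + b then h.choose else 0
  have hr : ∀ x y : R, y ^ 2 = x ^ 3 + a * x + b → y = r x ∨ y = -r x := by
    intro x y hy
    have h1 : r x ^ 2 = x ^ 3 + a * x + b := by
      have h2 : ∃ y, y ^ 2 = x ^ 3 + a * x + b := ⟨y, hy⟩
      show (if h : ∃ y, y ^ 2 = x ^ 3 + a * x + b then h.choose else 0) ^ 2 = _
      rw [dif_pos h2]
      exact h2.choose_spec
    exact sq_eq_sq_iff_eq_or_eq_neg.1 (hy.trans h1.symm)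
  let f : {x : R × R // x.2 ^ 2 = x.1 ^ 3 + a * x.1 + b} → R × Bool :=
    fun z => (z.1.1, decide (z.1.2 = r z.1.1))
  have hf : Function.Injective f := by
    rintro ⟨⟨x, y⟩, hz⟩ ⟨⟨x', y'⟩, hz'⟩ he
    have h1 : x = x' := congrArg Prod.fst he
    subst h1
    have h2 : decide (y = r x) = decide (y' = r x) := congrArg Prod.snd he
    have h3 : y = y' := by
      by_cases h4 : y = r x
      · have h5 : y' = r x := by
          rw [decide_eq_true h4] at h2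
          exact of_decide_eq_true h2.symm
        rw [h4, h5]
      · have h5 : y' ≠ r x := by
          rw [decide_eq_false h4] at h2
          exact of_decide_eq_false h2.symm
        rw [(hr x y hz).resolve_left h4, (hr x y' hz').resolve_left h5]
    subst h3
    rfl
  have h1 := Nat.card_le_card_of_injective f hf
  rw [Nat.card_prod, Nat.card_eq_fintype_card (α := Bool), Fintype.card_bool, mul_comm] at h1
  exact h1

lemma pv_le (a b : 𝓞 K) (w : HeightOneSpectrum (𝓞 K)) :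
    pv a b w ≤ 2 * Ideal.absNorm w.asIdeal := by
  have hmax : w.asIdeal.IsMaximal := w.isMaximal
  letI : Field (𝓞 K ⧸ w.asIdeal) := Ideal.Quotient.field w.asIdeal
  have hfin : Finite (𝓞 K ⧸ w.asIdeal) := Ideal.finiteQuotientOfFreeOfNeBot _ w.ne_bot
  rw [← card_quot]
  exact card_pts _ _

/-- the quadratic polynomial at the roots of unity -/
lemma P_ne {q : ℕ} (hq : 2 ≤ q) {m : ℕ} (hm : m ≤ 2 * q) {l : ℂ} (hl : l ^ 4 = 1 ∨ l = 0) :
    1 - l * (((q : ℂ) - m) * (q : ℂ)⁻¹) + l ^ 2 * (q : ℂ)⁻¹ ≠ 0 := by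
  intro h0
  have hq0 : (q : ℂ) ≠ 0 := by
    have : q ≠ 0 := by omega
    exact_mod_cast this
  have h1 : (q : ℂ) - l * ((q : ℂ) - m) + l ^ 2 = 0 := by
    have h2 : (q : ℂ) * (1 - l * (((q : ℂ) - m) * (q : ℂ)⁻¹) + l ^ 2 * (q : ℂ)⁻¹) =
        (q : ℂ) - l * ((q : ℂ) - m) + l ^ 2 := by
      field_simp
    rw [← h2, h0, mul_zero]
  have hqr : (2 : ℝ) ≤ q := by exact_mod_cast hq
  have hmr : (m : ℝ) ≤ 2 * q := by exact_mod_cast hm
  have hm0 : (0 : ℝ) ≤ m := Nat.cast_nonneg m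
  rcases hl with hl | hl
  · have h3 : (l - 1) * (l + 1) * (l ^ 2 + 1) = 0 := by linear_combination hl
    rcases mul_eq_zero.1 h3 with h4 | h4
    · rcases mul_eq_zero.1 h4 with h5 | h5
      · have h6 : l = 1 := by linear_combination h5
        rw [h6] at h1
        have h7 : (((m : ℝ) + 1 : ℝ) : ℂ) = 0 := by push_cast; linear_combination h1
        have h8 := Complex.ofReal_eq_zero.1 h7
        linarith
      · have h6 : l = -1 := by linear_combination h5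
        rw [h6] at h1
        have h7 : ((2 * (q : ℝ) - m + 1 : ℝ) : ℂ) = 0 := by push_cast; linear_combination h1
        have h8 := Complex.ofReal_eq_zero.1 h7
        linarith
    · have h5 : l ^ 2 = -1 := by linear_combination h4
      have h6 : l * (((q : ℝ) - m : ℝ) : ℂ) = (((q : ℝ) - 1 : ℝ) : ℂ) := by
        push_cast
        linear_combination h5 - h1
      have h7 : ((-(((q : ℝ) - m) ^ 2) : ℝ) : ℂ) = ((((q : ℝ) - 1) ^ 2 : ℝ) : ℂ) := by
        have h8 := congrArg (fun z => z ^ 2) h6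
        simp only [mul_pow, h5] at h8
        push_cast at h8 ⊢
        linear_combination h8
      have h9 := Complex.ofReal_injective h7
      nlinarith [sq_nonneg ((q : ℝ) - m)]
  · rw [hl] at h1
    have h7 : (((q : ℝ) : ℝ) : ℂ) = 0 := by push_cast; linear_combination h1
    have h8 := Complex.ofReal_eq_zero.1 h7
    linarith

lemma Pf_diff (n : 𝓞 K) (c : Ideal (𝓞 K) → ℂ) (B : 𝓞 K) (w : HeightOneSpectrum (𝓞 K)) :
    Differentiable ℂ (Pf n c B w) := by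
  classical
  have hq0 : ((Ideal.absNorm w.asIdeal : ℕ) : ℂ) ≠ 0 := by
    have := Ideal.absNorm_ne_zero_of_nonZeroDivisors ⟨w.asIdeal, by
      rw [mem_nonZeroDivisors_iff_ne_zero]
      exact w.ne_bot⟩
    exact_mod_cast this
  have h1 : Differentiable ℂ (fun s : ℂ => ((Ideal.absNorm w.asIdeal : ℕ) : ℂ) ^ (-s)) := by
    intro z
    exact (differentiableAt_id.neg).const_cpow (Or.inl hq0)
  have h2 : Differentiable ℂ (fun s : ℂ => ((Ideal.absNorm w.asIdeal : ℕ) : ℂ) ^ (1 - 2 * s)) := by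
    intro z
    exact ((differentiableAt_const _).sub ((differentiableAt_const _).mul differentiableAt_id)).const_cpow
      (Or.inl hq0)
  unfold Pf
  by_cases h3 : n ∈ w.asIdeal
  · simp only [if_pos h3]
    exact ((differentiable_const _).sub ((differentiable_const _).mul
      ((differentiable_const _).mul h1))).add (differentiable_const _)
  · simp only [if_neg h3]
    exact ((differentiable_const _).sub ((differentiable_const _).mul
      ((differentiable_const _).mul h1))).add ((differentiable_const _).mul h2)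

lemma two_le_norm (w : HeightOneSpectrum (𝓞 K)) : 2 ≤ Ideal.absNorm w.asIdeal := by
  have h1 := Ideal.absNorm_ne_zero_of_nonZeroDivisors ⟨w.asIdeal, by
      rw [mem_nonZeroDivisors_iff_ne_zero]
      exact w.ne_bot⟩
  have h2 : Ideal.absNorm w.asIdeal ≠ 1 := by
    rw [Ne, Ideal.absNorm_eq_one_iff]
    exact w.isPrime.ne_top
  have h3 : Ideal.absNorm w.asIdeal ≠ 0 := h1
  omega

lemma Pf_ne_one {a b n : 𝓞 K} {c : Ideal (𝓞 K) → ℂ} (B : 𝓞 K) {w : HeightOneSpectrum (𝓞 K)}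
    (hn : n ∉ w.asIdeal) (hcw : c w.asIdeal = (Ideal.absNorm w.asIdeal : ℂ) - pv a b w) :
    Pf n c B w 1 ≠ 0 := by
  classical
  have h1 : Pf n c B w 1 = 1 - lam w B * (((Ideal.absNorm w.asIdeal : ℕ) - (pv a b w : ℕ) : ℂ) *
      ((Ideal.absNorm w.asIdeal : ℕ) : ℂ)⁻¹) + lam w B ^ 2 *
      ((Ideal.absNorm w.asIdeal : ℕ) : ℂ)⁻¹ := by
    unfold Pf
    rw [if_neg hn, hcw, Complex.cpow_neg_one, show (1 - 2 * 1 : ℂ) = -1 by norm_num,
      Complex.cpow_neg_one]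
  rw [h1]
  refine P_ne (two_le_norm w) (pv_le a b w) ?_
  rcases lam_cases w B with h | h | h
  · exact Or.inr h
  · left; rw [h]; norm_num
  · left; rw [h]; norm_num

lemma Pf_ne {a b n : 𝓞 K} {c : Ideal (𝓞 K) → ℂ} (B : 𝓞 K) {w : HeightOneSpectrum (𝓞 K)}
    (hn : n ∉ w.asIdeal) (hcw : c w.asIdeal = (Ideal.absNorm w.asIdeal : ℂ) - pv a b w) {s : ℂ}
    (hs : 2 < s.re) : Pf n c B w s ≠ 0 := by
  classical
  intro h0
  unfold Pf at h0
  rw [if_neg hn] at h0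
  set q := Ideal.absNorm w.asIdeal with hq
  have hq2 : 2 ≤ q := two_le_norm w
  have hqr : (2 : ℝ) ≤ q := by exact_mod_cast hq2
  have hq0 : (0 : ℝ) < q := by linarith
  have hl : ‖lam w B‖ ≤ 1 := by
    rcases lam_cases w B with h | h | h <;> rw [h] <;> simp
  have hcn : ‖c w.asIdeal‖ ≤ q := by
    rw [hcw]
    have e : ((q : ℂ) - (pv a b w : ℂ)) = (((q : ℝ) - (pv a b w : ℝ) : ℝ) : ℂ) := by push_cast; rfl
    rw [e, Complex.norm_real, Real.norm_eq_abs, abs_le]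
    have h1 : (pv a b w : ℝ) ≤ 2 * q := by exact_mod_cast pv_le a b w
    have h2 : (0 : ℝ) ≤ pv a b w := Nat.cast_nonneg _
    constructor <;> linarith
  have e1 : ‖(q : ℂ) ^ (-s)‖ ≤ (q : ℝ)⁻¹ * (q : ℝ)⁻¹ := by
    rw [Complex.norm_natCast_cpow_of_pos (by omega)]
    have h1 : (q : ℝ) ^ (-s).re ≤ (q : ℝ) ^ (-2 : ℝ) := by
      refine Real.rpow_le_rpow_of_exponent_le (by linarith) ?_
      rw [Complex.neg_re]
      linarith
    have h2 : (q : ℝ) ^ (-2 : ℝ) = (q : ℝ)⁻¹ * (q : ℝ)⁻¹ := by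
      rw [show (-2 : ℝ) = -1 + -1 by norm_num, Real.rpow_add hq0, Real.rpow_neg_one]
    rw [← h2]
    exact h1
  have e2 : ‖(q : ℂ) ^ (1 - 2 * s)‖ ≤ (q : ℝ)⁻¹ * (q : ℝ)⁻¹ := by
    rw [Complex.norm_natCast_cpow_of_pos (by omega)]
    have h1 : (q : ℝ) ^ (1 - 2 * s).re ≤ (q : ℝ) ^ (-2 : ℝ) := by
      refine Real.rpow_le_rpow_of_exponent_le (by linarith) ?_
      have : (1 - 2 * s).re = 1 - 2 * s.re := by simp
      rw [this]
      linarith
    have h2 : (q : ℝ) ^ (-2 : ℝ) = (q : ℝ)⁻¹ * (q : ℝ)⁻¹ := by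
      rw [show (-2 : ℝ) = -1 + -1 by norm_num, Real.rpow_add hq0, Real.rpow_neg_one]
    rw [← h2]
    exact h1
  have hinv : (q : ℝ)⁻¹ ≤ 1 / 2 := by
    rw [inv_le_comm₀ hq0 (by norm_num)]
    linarith
  have hinv0 : 0 < (q : ℝ)⁻¹ := inv_pos.2 hq0
  have h1 : (1 : ℂ) = lam w B * (c w.asIdeal * (q : ℂ) ^ (-s)) -
      lam w B ^ 2 * (q : ℂ) ^ (1 - 2 * s) := by linear_combination h0
  have h2 : (1 : ℝ) ≤ ‖lam w B‖ * (‖c w.asIdeal‖ * ‖(q : ℂ) ^ (-s)‖) +
      ‖lam w B‖ ^ 2 * ‖(q : ℂ) ^ (1 - 2 * s)‖ := by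
    calc (1 : ℝ) = ‖(1 : ℂ)‖ := by simp
      _ = ‖lam w B * (c w.asIdeal * (q : ℂ) ^ (-s)) - lam w B ^ 2 * (q : ℂ) ^ (1 - 2 * s)‖ := by
          rw [← h1]
      _ ≤ _ := by
          refine (norm_sub_le _ _).trans ?_
          rw [norm_mul, norm_mul, norm_mul, norm_pow]
  have h3 : ‖lam w B‖ * (‖c w.asIdeal‖ * ‖(q : ℂ) ^ (-s)‖) ≤ 1 * (q * ((q : ℝ)⁻¹ * (q : ℝ)⁻¹)) := by
    refine mul_le_mul hl (mul_le_mul hcn e1 (norm_nonneg _) hq0.le) (by positivity) (by norm_num)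
  have h4 : ‖lam w B‖ ^ 2 * ‖(q : ℂ) ^ (1 - 2 * s)‖ ≤ 1 ^ 2 * ((q : ℝ)⁻¹ * (q : ℝ)⁻¹) := by
    refine mul_le_mul (pow_le_pow_left₀ (norm_nonneg _) hl 2) e2 (norm_nonneg _) (by norm_num)
  have h5 : (q : ℝ) * ((q : ℝ)⁻¹ * (q : ℝ)⁻¹) = (q : ℝ)⁻¹ := by
    rw [← mul_assoc, mul_inv_cancel₀ hq0.ne', one_mul]
  rw [h5, one_mul] at h3
  rw [one_pow, one_mul] at h4
  nlinarith

end lam

end Pool.Agent.K4H15.BZ
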