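import Pool.Agent.K4H15.BZ.Frb

/-!
The Euler factors.
-/

set_option autoImplicit false

namespace Pool.Agent.K4H15.BZ

open NumberField IsDedekindDomain Matrix
open scoped Pointwise Kronecker
open Pool.Agent.K4H55.BI (IQ sym gen gen_span gen_dvd gen_prime gen_na)
open Pool.Agent.K4H55.BD (tau tv tau_tau tau_int mul_tau mem_tv res_int int_mem norm_gen nv_cases
  uniq_over two_notMem pv pv_twist fin_over norm_eq char_ne_two cjK coe_tau cjK_cjK low mem_low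
  mem_tv_nat)
open Pool.Agent.R431.B (FrobSet frob_iff frob_nonempty frob_conj trans_over frob_stab inc inc_inj
  exists_place cpow_quad)
open Pool.Agent.K4H15.BT (Eig det_eig cM cM_mul cM_one frobM frobM_single quad_fac exists_eig
  frobM_conj quad_sandwich cM_inv cM_inv')

variable {K F : Type} [Field K] [NumberField K] [Field F] [NumberField F] [Algebra K F]
  {σ : K →+* ℂ} {δ : K}

theorem exists_eig' {G : Type} [Group G] [Finite G] (hc : ∀ s t : G, s * t = t * s) {κ : Type}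
    [Fintype κ] [DecidableEq κ] (ρ : G →* GL κ ℂ) :
    ∃ (b : Module.Basis κ ℂ (κ → ℂ)) (χ : κ → (G →* ℂ)), ∀ u i, Eig (b i) (cM (ρ u)) (χ i u) := by
  let _ : CommGroup G := { (inferInstance : Group G) with mul_comm := hc }
  obtain ⟨b, χ, h⟩ := exists_eig ρ
  exact ⟨b, fun i => (χ i).toMonoidHom, h⟩

/-- the complex conjugation extends to `F` -/
lemma exists_cx (h : IQ K σ δ) [IsGalois ℚ F] : ∃ c : F ≃ₐ[ℚ] F, Cx h c := by
  let e : K ≃ₐ[ℚ] K := AlgEquiv.ofAlgHom (cjK h) (cjK h) (AlgHom.ext fun x => cjK_cjK h x)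
    (AlgHom.ext fun x => cjK_cjK h x)
  exact ⟨e.liftNormal F, fun k => e.liftNormal_commutes F k⟩

/-- the conjugate place -/
noncomputable def cv (c : F ≃ₐ[ℚ] F) (v : HeightOneSpectrum (𝓞 F)) : HeightOneSpectrum (𝓞 F) where
  asIdeal := c • v.asIdeal
  isPrime := by
    have := v.isPrime
    infer_instance
  ne_bot := by
    intro h0
    obtain ⟨x, hx, hx0⟩ := Submodule.exists_mem_ne_zero_of_ne_bot v.ne_bot
    have h1 : c • x ∈ c • v.asIdeal := Ideal.smul_mem_pointwise_smul c x _ hx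
    rw [h0, Ideal.mem_bot] at h1
    apply hx0
    rw [← inv_smul_smul c x, h1, smul_zero]

lemma mem_cv {c : F ≃ₐ[ℚ] F} {v : HeightOneSpectrum (𝓞 F)} {x : 𝓞 F} :
    x ∈ (cv c v).asIdeal ↔ c⁻¹ • x ∈ v.asIdeal :=
  Ideal.mem_pointwise_smul_iff_inv_smul_mem

lemma low_cv (h : IQ K σ δ) {c : F ≃ₐ[ℚ] F} (hc : Cx h c) (v : HeightOneSpectrum (𝓞 F)) :
    low (K := K) (cv c v) = tv h (low (K := K) v) := by
  apply HeightOneSpectrum.ext
  ext x
  rw [mem_low, mem_cv, cx_smul h (Cx.inv h hc), mem_tv, mem_low]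

lemma sq_neg_det {M : Matrix (Fin 2) (Fin 2) ℂ} (h : M.trace = 0) : M * M = (-M.det) • 1 := by
  rw [Matrix.trace_fin_two] at h
  ext i j
  rw [Matrix.mul_apply, Fin.sum_univ_two, Matrix.smul_apply, smul_eq_mul, Matrix.det_fin_two]
  fin_cases i <;> fin_cases j <;> simp [Matrix.one_apply] <;>
    first | linear_combination (M 0 0) * h | linear_combination (M 0 1) * h |
      linear_combination (M 1 0) * h | linear_combination (M 1 1) * h

lemma tr_sq (M : Matrix (Fin 2) (Fin 2) ℂ) : (M * M).trace = M.trace ^ 2 - 2 * M.det := by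
  rw [Matrix.trace_fin_two, Matrix.trace_fin_two, Matrix.det_fin_two, Matrix.mul_apply,
    Matrix.mul_apply, Fin.sum_univ_two, Fin.sum_univ_two]
  ring

/-- the Euler factor over `ℚ` -/
noncomputable def eulQ {κ : Type} [Fintype κ] [DecidableEq κ] (A : ℕ → ℂ) (N : ℕ)
    (ρ : (F ≃ₐ[ℚ] F) →* GL κ ℂ) (v : HeightOneSpectrum (𝓞 F)) (s : ℂ) (p : ℕ) : ℂ :=
  (1 - (A p * (p : ℂ) ^ (-s)) • frobM ρ v +
    (if p ∣ N then 0 else (p : ℂ) ^ (1 - 2 * s)) • frobM ρ v ^ 2).det⁻¹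

/-- the Euler factor does not depend on the place -/
lemma eulQ_place [IsGalois ℚ F] {κ : Type} [Fintype κ] [DecidableEq κ] (A : ℕ → ℂ) (N : ℕ)
    (ρ : (F ≃ₐ[ℚ] F) →* GL κ ℂ) {v w : HeightOneSpectrum (𝓞 F)} {p : ℕ} (hp : p.Prime)
    (hv : (p : 𝓞 F) ∈ v.asIdeal) (hw : (p : 𝓞 F) ∈ w.asIdeal) (s : ℂ) :
    eulQ A N ρ w s p = eulQ A N ρ v s p := by
  obtain ⟨τ, hτ⟩ := trans_over hp hv hw
  unfold eulQ
  rw [frobM_conj ρ hτ, quad_sandwich (cM_inv ρ τ) (cM_inv' ρ τ)]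

/-- the places over `p` -/
noncomputable def Wp (K : Type) [Field K] [NumberField K] (p : ℕ) :
    Finset (HeightOneSpectrum (𝓞 K)) :=
  open Classical in if h : p ≠ 0 then (fin_over K h).toFinset else ∅

lemma mem_Wp {p : ℕ} (hp : p.Prime) {w : HeightOneSpectrum (𝓞 K)} :
    w ∈ Wp K p ↔ (p : 𝓞 K) ∈ w.asIdeal := by
  unfold Wp
  rw [dif_pos hp.ne_zero, Set.Finite.mem_toFinset]
  rfl

section fac

variable {p N : ℕ} {n : 𝓞 K} {c : Ideal (𝓞 K) → ℂ} {A : ℕ → ℂ}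

/-- the level -/
lemma mem_level (hp : p.Prime) {w : HeightOneSpectrum (𝓞 K)} (hpw : (p : 𝓞 K) ∈ w.asIdeal)
    (hn : n = (N : 𝓞 K)) : n ∈ w.asIdeal ↔ p ∣ N := by
  have h1 := int_mem hp hpw (n := (N : ℤ))
  rw [Int.cast_natCast] at h1
  rw [hn, h1, Int.natCast_dvd_natCast]

lemma Pf_split (hp : p.Prime) {w : HeightOneSpectrum (𝓞 K)} (hpw : (p : 𝓞 K) ∈ w.asIdeal)
    (hn : n = (N : 𝓞 K)) (hN : Ideal.absNorm w.asIdeal = p) (hc : c w.asIdeal = A p) {s α β : ℂ}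
    (h1 : α + β = A p * (p : ℂ) ^ (-s))
    (h2 : α * β = if p ∣ N then 0 else (p : ℂ) ^ (1 - 2 * s)) (B : 𝓞 K) :
    Pf n c B w s = (1 - α * lam w B) * (1 - β * lam w B) := by
  classical
  unfold Pf
  rw [hN, hc]
  have h3 : (if n ∈ w.asIdeal then (0 : ℂ) else (p : ℂ) ^ (1 - 2 * s)) = α * β := by
    rw [h2]
    by_cases h4 : p ∣ N
    · rw [if_pos h4, if_pos ((mem_level hp hpw hn).2 h4)]
    · rw [if_neg h4, if_neg fun h5 => h4 ((mem_level hp hpw hn).1 h5)]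
  rw [h3, ← h1]
  ring

lemma Pf_inert (hp : p.Prime) {w : HeightOneSpectrum (𝓞 K)} (hpw : (p : 𝓞 K) ∈ w.asIdeal)
    (hn : n = (N : 𝓞 K)) (hN : Ideal.absNorm w.asIdeal = p ^ 2)
    (hc : c w.asIdeal = A p ^ 2 - (if p ∣ N then 0 else 2 * (p : ℂ))) {s α β : ℂ}
    (h1 : α + β = A p * (p : ℂ) ^ (-s))
    (h2 : α * β = if p ∣ N then 0 else (p : ℂ) ^ (1 - 2 * s)) (B : 𝓞 K) :
    Pf n c B w s = (1 - α ^ 2 * lam w B) * (1 - β ^ 2 * lam w B) := by
  classical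
  unfold Pf
  have e1 : ((p ^ 2 : ℕ) : ℂ) ^ (-s) = ((p : ℂ) ^ (-s)) ^ 2 := by
    rw [pow_two p, Nat.cast_mul, Complex.natCast_mul_natCast_cpow, pow_two]
  have e2 : ((p ^ 2 : ℕ) : ℂ) ^ (1 - 2 * s) = ((p : ℂ) ^ (1 - 2 * s)) ^ 2 := by
    rw [pow_two p, Nat.cast_mul, Complex.natCast_mul_natCast_cpow, pow_two]
  rw [hN, hc, e1, e2]
  have h3 : (if n ∈ w.asIdeal then (0 : ℂ) else ((p : ℂ) ^ (1 - 2 * s)) ^ 2) = (α * β) ^ 2 := by
    rw [h2]
    by_cases h4 : p ∣ N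
    · rw [if_pos h4, if_pos ((mem_level hp hpw hn).2 h4)]
      ring
    · rw [if_neg h4, if_neg fun h5 => h4 ((mem_level hp hpw hn).1 h5)]
  have h4 : (A p ^ 2 - (if p ∣ N then 0 else 2 * (p : ℂ))) * ((p : ℂ) ^ (-s)) ^ 2 =
      α ^ 2 + β ^ 2 := by
    have h5 : (if p ∣ N then 0 else 2 * (p : ℂ)) * ((p : ℂ) ^ (-s)) ^ 2 = 2 * (α * β) := by
      rw [h2]
      by_cases h4 : p ∣ N
      · rw [if_pos h4, if_pos h4]
        ring
      · rw [if_neg h4, if_neg h4, cpow_quad hp]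
        ring
    rw [sub_mul, h5]
    linear_combination -(α + β + A p * (p : ℂ) ^ (-s)) * h1
  rw [h3, h4]
  ring

lemma exists_ab (x y : ℂ) : ∃ α β : ℂ, α + β = x ∧ α * β = y := by
  obtain ⟨d, hd⟩ := IsAlgClosed.exists_pow_nat_eq (x ^ 2 - 4 * y) two_pos
  exact ⟨(x + d) / 2, (x - d) / 2, by ring, by linear_combination -(1 / 4) * hd⟩

end fac

section main

variable {𝒟 : Set (𝓞 K)} {p N : ℕ} {n : 𝓞 K} {c : Ideal (𝓞 K) → ℂ} {A : ℕ → ℂ}
  {ρg ρh : (F ≃ₐ[ℚ] F) →* GL (Fin 2) ℂ} {ρ : (F ≃ₐ[ℚ] F) →* GL (Fin 2 × Fin 2) ℂ}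
  {b b' : Module.Basis (Fin 2) ℂ (Fin 2 → ℂ)} {χ μ : Fin 2 → ((F ≃ₐ[K] F) →* ℂ)}
  {B : Fin 2 → 𝓞 K} {y : Fin 2 → F}

/-- the data at a prime -/
structure Da (K : Type) [Field K] [NumberField K] (F : Type) [Field F] [NumberField F]
    [Algebra K F] (χ μ : Fin 2 → ((F ≃ₐ[K] F) →* ℂ)) (B : Fin 2 → 𝓞 K) (y : Fin 2 → F) : Prop where
  eight : ∀ i, (8 : 𝓞 K) ∣ B i - 1
  root : ∀ i, y i ^ 2 = algebraMap K F (B i : K)
  val : ∀ i (t : F ≃ₐ[K] F), (t (y i) = y i ∧ χ 0 t * μ i t = 1) ∨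
    (t (y i) = -y i ∧ χ 0 t * μ i t = -1)

theorem eul_unram (h : IQ K σ δ) [IsGalois ℚ F] (hF : KD K 𝒟 F)
    (hg : ∀ s : F ≃ₐ[ℚ] F, ¬ Fx K s → (cM (ρg s)).trace = 0)
    (hρ : ∀ s α, (1 - α • cM (ρ s)).det = kp (cM (ρg s)).trace (cM (ρg s)).det
      (cM (ρh s)).trace (cM (ρh s)).det α)
    (hb : ∀ (t : F ≃ₐ[K] F) i, Eig (b i) (cM (ρg (inc K F t))) (χ i t))
    (hb' : ∀ (t : F ≃ₐ[K] F) i, Eig (b' i) (cM (ρh (inc K F t))) (μ i t))
    (hD : Da K F χ μ B y) (hp : p.Prime) {v : HeightOneSpectrum (𝓞 F)}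
    (hpv : (p : 𝓞 F) ∈ v.asIdeal)
    (hr : ∀ w : HeightOneSpectrum (𝓞 K), (p : 𝓞 K) ∈ w.asIdeal → (p : 𝓞 K) ∉ w.asIdeal ^ 2)
    (hB : ∀ w : HeightOneSpectrum (𝓞 K), (p : 𝓞 K) ∈ w.asIdeal → ∀ i, B i ∉ w.asIdeal)
    (hBs : ∀ χ : (F ≃ₐ[K] F) →* ℂ, ∃ D y, (8 : 𝓞 K) ∣ D - 1 ∧
      (∀ w : HeightOneSpectrum (𝓞 K), (p : 𝓞 K) ∈ w.asIdeal → D ∉ w.asIdeal) ∧
      y ^ 2 = algebraMap K F (D : K) ∧
      ∀ t : F ≃ₐ[K] F, (t y = y ∧ χ t = 1) ∨ (t y = -y ∧ χ t = -1))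
    (hn : n = (N : 𝓞 K))
    (hc1 : ∀ w : HeightOneSpectrum (𝓞 K), (p : 𝓞 K) ∈ w.asIdeal → Ideal.absNorm w.asIdeal = p →
      c w.asIdeal = A p)
    (hc2 : ∀ w : HeightOneSpectrum (𝓞 K), (p : 𝓞 K) ∈ w.asIdeal →
      Ideal.absNorm w.asIdeal = p ^ 2 → c w.asIdeal = A p ^ 2 - (if p ∣ N then 0 else 2 * (p : ℂ)))
    (s : ℂ) :
    eulQ A N ρ v s p = (∏ w ∈ Wp K p, ∏ i, Pf n c (B i) w s)⁻¹ := by
  classical
  obtain ⟨f, hf⟩ := frob_nonempty v
  have hsing : ∀ v : HeightOneSpectrum (𝓞 F), (p : 𝓞 F) ∈ v.asIdeal → ∀ {s : F ≃ₐ[ℚ] F},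
      s ∈ FrobSet v → FrobSet v = {s} := by
    intro v hpv s hs
    refine frob_single h hF hp hpv (hr _ (mem_low_nat.2 hpv)) (fun χ => ?_) hs
    obtain ⟨D, y, h1, h2, h3, h4⟩ := hBs χ
    exact ⟨D, y, h1, fun _ => h2 _ (mem_low_nat.2 hpv), h3, h4⟩
  obtain ⟨α, β, hα, hβ⟩ := exists_ab (A p * (p : ℂ) ^ (-s))
    (if p ∣ N then 0 else (p : ℂ) ^ (1 - 2 * s))
  set w := low (K := K) v with hw
  have hpw : (p : 𝓞 K) ∈ w.asIdeal := mem_low_nat.2 hpv
  unfold eulQ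
  congr 1
  rw [frobM_single ρ (hsing v hpv hf), ← hα, ← hβ, quad_fac, hρ, hρ]
  obtain ⟨p', hp', hpw', hN⟩ := nv_cases h w
  obtain rfl := uniq_over hp' hp hpw' hpw
  rcases hN with hN | hN
  · -- split
    obtain ⟨t, ht⟩ := range_fix (frob_split h hp hpv (hr w hpw) hN hf)
    obtain ⟨e1, e2⟩ := eig_two (hb t)
    obtain ⟨e3, e4⟩ := eig_two (hb' t)
    have hft : ∀ x : 𝓞 F, t • x - x ^ Ideal.absNorm w.asIdeal ∈ v.asIdeal := by
      intro x
      rw [hN]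
      have h1 := (frob_iff hp hpv f).1 hf x
      rw [← ht] at h1
      exact h1
    -- the conjugate
    obtain ⟨g, hg'⟩ := exists_cx (F := F) h
    set v' := cv g v with hv'
    have hpv' : ((p' : ℕ) : 𝓞 F) ∈ v'.asIdeal := by
      rw [mem_cv]
      have : g⁻¹ • ((p' : ℕ) : 𝓞 F) = ((p' : ℕ) : 𝓞 F) := by
        apply RingOfIntegers.ext
        show g⁻¹ (((p' : ℕ) : 𝓞 F) : F) = _
        simp
      rw [this]
      exact hpv
    have hw' : low (K := K) v' = tv h w := low_cv h hg' v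
    have hN' : Ideal.absNorm (tv h w).asIdeal = p' := by
      obtain ⟨p1, hp1, hpw1, hN1⟩ := nv_cases h (tv h w)
      obtain rfl := uniq_over hp1 hp hpw1 (mem_tv_nat h hpw)
      rcases hN1 with hN1 | hN1
      · exact hN1
      · exfalso
        have h1 := inert_all h hp (mem_tv_nat h hpw) hN1 hpw
        exact split_ne h hp hpw (hr w hpw) hN h1.symm
    have hf' : g * f * g⁻¹ ∈ FrobSet v' := frob_conj rfl hf
    obtain ⟨t', ht'⟩ := range_fix (frob_split h hp hpv' (by rw [hw']; exact hr _ (mem_tv_nat h hpw))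
      (by rw [hw']; exact hN') hf')
    have hft' : ∀ x : 𝓞 F, t' • x - x ^ Ideal.absNorm (low (K := K) v').asIdeal ∈ v'.asIdeal := by
      intro x
      rw [hw', hN']
      have h1 := (frob_iff hp hpv' _).1 hf' x
      rw [← ht'] at h1
      exact h1
    have hconj : cM (ρg g) * cM (ρg (inc K F t)) = cM (ρg (inc K F t')) * cM (ρg g) := by
      rw [ht, ht', ← cM_mul, ← cM_mul, ← map_mul, ← map_mul]
      congr 2
      group
    have hconj' : cM (ρh (inc K F t')) = cM (ρh g) * cM (ρh (inc K F t)) * cM (ρh g⁻¹) := by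
      rw [ht, ht', ← cM_mul, ← cM_mul, ← map_mul, ← map_mul]
    have hχ : χ 0 t' = χ 1 t := by
      refine chi_conj (fun t => cM (ρg (inc K F t))) (fun i t => χ i t) (fun t i => hb t i)
        (fun i => map_one _) (cM (ρg g)) ?_ (fun t => ?_) hconj
      · have h1 := cM_inv ρg g
        have h2 := congrArg Matrix.det h1
        rw [Matrix.det_mul, Matrix.det_one] at h2
        exact left_ne_zero_of_mul_eq_one h2
      · show (cM (ρg (inc K F t)) * cM (ρg g)).trace = 0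
        rw [← cM_mul, ← map_mul]
        exact hg _ fun h1 => not_both h h1 (Fx.mul_cx h (fx_inc t) hg')
    obtain ⟨e5, e6⟩ := eig_two (hb' t')
    have e7 : (cM (ρh (inc K F t'))).trace = (cM (ρh (inc K F t))).trace := by
      rw [hconj', Matrix.trace_mul_comm, ← Matrix.mul_assoc, cM_inv', Matrix.one_mul]
    have e8 : (cM (ρh (inc K F t'))).det = (cM (ρh (inc K F t))).det := by
      rw [hconj', Matrix.det_mul, Matrix.det_mul]
      have h1 := congrArg Matrix.det (cM_inv ρh g)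
      rw [Matrix.det_mul, Matrix.det_one] at h1
      linear_combination (cM (ρh (inc K F t))).det * h1
    rw [e5, e3] at e7
    rw [e6, e4] at e8
    -- the symbols
    have hl : ∀ i, lam w (B i) = χ 0 t * μ i t := fun i =>
      frob_lam (fun _ => hB w hpw i) (hD.eight i) (hD.root i) hft (hD.val i t)
    have hl' : ∀ i, lam (tv h w) (B i) = χ 0 t' * μ i t' := fun i => by
      rw [← hw']
      exact frob_lam (fun _ => hB _ (by rw [hw']; exact mem_tv_nat h hpw) i) (hD.eight i)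
        (hD.root i) hft' (hD.val i t')
    -- the places
    have hWp : Wp K p' = {w, tv h w} := by
      ext w'
      rw [mem_Wp hp, Finset.mem_insert, Finset.mem_singleton]
      constructor
      · exact fun h1 => split_all h hN h1
      · rintro (rfl | rfl)
        · exact hpw
        · exact mem_tv_nat h hpw
    rw [hWp, Finset.prod_pair (split_ne h hp hpw (hr w hpw) hN).symm, Fin.prod_univ_two,
      Fin.prod_univ_two, Pf_split hp hpw hn hN (hc1 w hpw hN) hα hβ,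
      Pf_split hp hpw hn hN (hc1 w hpw hN) hα hβ,
      Pf_split hp (mem_tv_nat h hpw) hn hN' (hc1 _ (mem_tv_nat h hpw) hN') hα hβ,
      Pf_split hp (mem_tv_nat h hpw) hn hN' (hc1 _ (mem_tv_nat h hpw) hN') hα hβ, hl, hl, hl', hl',
      ← ht, e1, e2, e3, e4, kp_split, kp_split, hχ]
    have key : ∀ x : ℂ, (1 - x * (χ 1 t * μ 0 t')) * (1 - x * (χ 1 t * μ 1 t')) =
        (1 - x * (χ 1 t * μ 0 t)) * (1 - x * (χ 1 t * μ 1 t)) := by
      intro x
      linear_combination -(x * χ 1 t) * e7 + (x * χ 1 t) ^ 2 * e8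
    calc _ = ((1 - α * (χ 0 t * μ 0 t)) * (1 - α * (χ 0 t * μ 1 t)) *
          ((1 - β * (χ 0 t * μ 0 t)) * (1 - β * (χ 0 t * μ 1 t)))) *
          (((1 - α * (χ 1 t * μ 0 t)) * (1 - α * (χ 1 t * μ 1 t))) *
          ((1 - β * (χ 1 t * μ 0 t)) * (1 - β * (χ 1 t * μ 1 t)))) := by ring
      _ = _ := by
          rw [← key α, ← key β]
          ring
  · -- inert
    have hcx := frob_inert h hp hpv hN hf
    obtain ⟨t, ht⟩ := range_fix (Cx.mul h hcx hcx)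
    obtain ⟨e3, e4⟩ := eig_two (hb' t)
    have hft : ∀ x : 𝓞 F, t • x - x ^ Ideal.absNorm w.asIdeal ∈ v.asIdeal := by
      intro x
      rw [hN]
      have h1 := frob_sq hp hpv hf x
      rw [← ht] at h1
      exact h1
    have htr : (cM (ρg f)).trace = 0 := hg f fun h1 => not_both h h1 hcx
    have hχ : χ 0 t = -(cM (ρg f)).det := by
      have h1 := hb t 0
      rw [ht, map_mul, cM_mul, sq_neg_det htr] at h1
      unfold Eig at h1
      rw [Matrix.smul_mulVec, Matrix.one_mulVec] at h1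
      have h2 : (-(cM (ρg f)).det - χ 0 t) • b 0 = 0 := by
        rw [sub_smul, h1, sub_self]
      have h3 := (smul_eq_zero.1 h2).resolve_right (b.ne_zero 0)
      linear_combination -h3
    have hm1 : μ 0 t + μ 1 t = (cM (ρh f)).trace ^ 2 - 2 * (cM (ρh f)).det := by
      rw [← e3, ht, map_mul, cM_mul, tr_sq]
    have hm2 : μ 0 t * μ 1 t = (cM (ρh f)).det ^ 2 := by
      rw [← e4, ht, map_mul, cM_mul, Matrix.det_mul, pow_two]
    have hl : ∀ i, lam w (B i) = χ 0 t * μ i t := fun i =>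
      frob_lam (fun _ => hB w hpw i) (hD.eight i) (hD.root i) hft (hD.val i t)
    have hWp : Wp K p' = {w} := by
      ext w'
      rw [mem_Wp hp, Finset.mem_singleton]
      constructor
      · exact fun h1 => inert_all h hp hpw hN h1
      · rintro rfl
        exact hpw
    rw [hWp, Finset.prod_singleton, Fin.prod_univ_two, Pf_inert hp hpw hn hN (hc2 w hpw hN) hα hβ,
      Pf_inert hp hpw hn hN (hc2 w hpw hN) hα hβ, hl, hl, htr, kp_inert hχ hm1 hm2,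
      kp_inert hχ hm1 hm2]
    ring

end main

end Pool.Agent.K4H15.BZ
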