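import Pool.Agent.K4H15.BT.Main

/-!
Determinants for tensor products of two-dimensional representations.
-/

set_option autoImplicit false

namespace Pool.Agent.K4H15.BZ

open Matrix
open scoped Kronecker
open Pool.Agent.K4H15.BT (Eig det_eig cM)

/-- the numbering -/
def e4 : Fin 4 ≃ Fin 2 × Fin 2 where
  toFun := ![(0, 0), (0, 1), (1, 0), (1, 1)]
  invFun p := ![![0, 1], ![2, 3]] p.1 p.2
  left_inv := by decide
  right_inv := by decide

/-- the value of the polynomial -/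
def kp (t d t' d' α : ℂ) : ℂ :=
  1 - α * (t * t') + α ^ 2 * (t ^ 2 * d' + t' ^ 2 * d - 2 * d * d') - α ^ 3 * (t * t' * d * d') +
    α ^ 4 * (d ^ 2 * d' ^ 2)

lemma det_four (m : Matrix (Fin 4) (Fin 4) ℂ) : m.det =
    m 0 0 * (m 1 1 * (m 2 2 * m 3 3 - m 2 3 * m 3 2) - m 1 2 * (m 2 1 * m 3 3 - m 2 3 * m 3 1) +
      m 1 3 * (m 2 1 * m 3 2 - m 2 2 * m 3 1)) -
    m 0 1 * (m 1 0 * (m 2 2 * m 3 3 - m 2 3 * m 3 2) - m 1 2 * (m 2 0 * m 3 3 - m 2 3 * m 3 0) +
      m 1 3 * (m 2 0 * m 3 2 - m 2 2 * m 3 0)) +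
    m 0 2 * (m 1 0 * (m 2 1 * m 3 3 - m 2 3 * m 3 1) - m 1 1 * (m 2 0 * m 3 3 - m 2 3 * m 3 0) +
      m 1 3 * (m 2 0 * m 3 1 - m 2 1 * m 3 0)) -
    m 0 3 * (m 1 0 * (m 2 1 * m 3 2 - m 2 2 * m 3 1) - m 1 1 * (m 2 0 * m 3 2 - m 2 2 * m 3 0) +
      m 1 2 * (m 2 0 * m 3 1 - m 2 1 * m 3 0)) := by
  rw [Matrix.det_succ_row_zero]
  simp only [Fin.sum_univ_four, Matrix.det_fin_three, Matrix.submatrix_apply]
  simp [Fin.succAbove, Fin.lt_def]
  ring

theorem kron_det (A B : Matrix (Fin 2) (Fin 2) ℂ) (α : ℂ) :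
    (1 - α • (A ⊗ₖ B)).det = kp A.trace A.det B.trace B.det α := by
  rw [← Matrix.det_submatrix_equiv_self e4, det_four]
  simp only [Matrix.submatrix_apply, Matrix.sub_apply, Matrix.smul_apply, Matrix.one_apply,
    Matrix.kroneckerMap_apply, smul_eq_mul]
  have h0 : e4 0 = (0, 0) := rfl
  have h1 : e4 1 = (0, 1) := rfl
  have h2 : e4 2 = (1, 0) := rfl
  have h3 : e4 3 = (1, 1) := rfl
  simp only [h0, h1, h2, h3, Prod.mk.injEq, Matrix.trace_fin_two, Matrix.det_fin_two, kp]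
  norm_num
  ring

lemma kp_split (a1 a2 b1 b2 α : ℂ) : kp (a1 + a2) (a1 * a2) (b1 + b2) (b1 * b2) α =
    ((1 - α * (a1 * b1)) * (1 - α * (a1 * b2))) * ((1 - α * (a2 * b1)) * (1 - α * (a2 * b2))) := by
  unfold kp
  ring

lemma kp_inert {d t' d' b1 b2 l : ℂ} (hl : l = -d) (h1 : b1 + b2 = t' ^ 2 - 2 * d')
    (h2 : b1 * b2 = d' ^ 2) (α : ℂ) :
    kp 0 d t' d' α = (1 - α ^ 2 * (l * b1)) * (1 - α ^ 2 * (l * b2)) := by
  unfold kp
  subst hl
  linear_combination (-α ^ 2 * d) * h1 - α ^ 4 * d ^ 2 * h2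

section eig

variable {κ : Type} [Fintype κ] [DecidableEq κ]

lemma trace_eig (b : Module.Basis κ ℂ (κ → ℂ)) {A : Matrix κ κ ℂ} {l : κ → ℂ}
    (h : ∀ i, Eig (b i) A (l i)) : A.trace = ∑ i, l i := by
  have h1 : LinearMap.toMatrix b b (Matrix.toLin' A) = Matrix.diagonal l := by
    ext i j
    rw [LinearMap.toMatrix_apply, Matrix.toLin'_apply, h j, map_smul]
    simp only [Module.Basis.repr_self, Finsupp.smul_apply, Finsupp.single_apply, smul_eq_mul,
      Matrix.diagonal_apply]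
    by_cases hij : i = j
    · subst hij
      simp
    · rw [if_neg hij, if_neg fun h => hij h.symm, mul_zero]
  have h2 := LinearMap.trace_eq_matrix_trace ℂ b (Matrix.toLin' A)
  have h3 := LinearMap.trace_eq_matrix_trace ℂ (Pi.basisFun ℂ κ) (Matrix.toLin' A)
  rw [h1, Matrix.trace_diagonal] at h2
  rw [← h2, h3]
  congr 1
  rw [← LinearMap.toMatrix'_toLin' A]
  simp [LinearMap.toMatrix_eq_toMatrix']

lemma eig_two {b : Module.Basis (Fin 2) ℂ (Fin 2 → ℂ)} {A : Matrix (Fin 2) (Fin 2) ℂ}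
    {l : Fin 2 → ℂ} (h : ∀ i, Eig (b i) A (l i)) :
    A.trace = l 0 + l 1 ∧ A.det = l 0 * l 1 := by
  rw [trace_eig b h, det_eig b h, Fin.sum_univ_two, Fin.prod_univ_two]
  exact ⟨rfl, rfl⟩

/-- equal eigenvectors, equal matrices -/
lemma eig_ext {b : Module.Basis κ ℂ (κ → ℂ)} {A : Matrix κ κ ℂ} {c : ℂ}
    (h : ∀ i, Eig (b i) A c) (v : κ → ℂ) : A.mulVec v = c • v := by
  have h1 : Matrix.toLin' A = c • LinearMap.id := b.ext fun i => by
    rw [Matrix.toLin'_apply, h i]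
    rfl
  have h2 := congrArg (fun f : (κ → ℂ) →ₗ[ℂ] (κ → ℂ) => f v) h1
  rwa [Matrix.toLin'_apply] at h2

end eig

/-- the conjugate of the first character is the second -/
theorem chi_conj {G0 : Type} [Group G0] {b : Module.Basis (Fin 2) ℂ (Fin 2 → ℂ)}
    (R : G0 → Matrix (Fin 2) (Fin 2) ℂ) (χ : Fin 2 → G0 → ℂ) (hb : ∀ t i, Eig (b i) (R t) (χ i t))
    (h1 : ∀ i, χ i 1 = 1) (X : Matrix (Fin 2) (Fin 2) ℂ) (hX : X.det ≠ 0)
    (htr : ∀ t, (R t * X).trace = 0) {t t' : G0} (hc : X * R t = R t' * X) :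
    χ 0 t' = χ 1 t := by
  -- the coordinates of `X`
  set Y : Matrix (Fin 2) (Fin 2) ℂ := LinearMap.toMatrix b b (Matrix.toLin' X) with hY
  have hdiag : ∀ s, LinearMap.toMatrix b b (Matrix.toLin' (R s)) = Matrix.diagonal fun i => χ i s := by
    intro s
    ext i j
    rw [LinearMap.toMatrix_apply, Matrix.toLin'_apply, hb s j, map_smul]
    simp only [Module.Basis.repr_self, Finsupp.smul_apply, Finsupp.single_apply, smul_eq_mul,
      Matrix.diagonal_apply]
    by_cases hij : i = j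
    · subst hij
      simp
    · rw [if_neg hij, if_neg fun h => hij h.symm, mul_zero]
  have hmul : ∀ A B : Matrix (Fin 2) (Fin 2) ℂ,
      LinearMap.toMatrix b b (Matrix.toLin' (A * B)) =
      LinearMap.toMatrix b b (Matrix.toLin' A) * LinearMap.toMatrix b b (Matrix.toLin' B) := by
    intro A B
    rw [Matrix.toLin'_mul, LinearMap.toMatrix_comp b b b]
  have htrace : ∀ A : Matrix (Fin 2) (Fin 2) ℂ,
      (LinearMap.toMatrix b b (Matrix.toLin' A)).trace = A.trace := by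
    intro A
    rw [← LinearMap.trace_eq_matrix_trace ℂ b (Matrix.toLin' A),
      LinearMap.trace_eq_matrix_trace ℂ (Pi.basisFun ℂ (Fin 2)) (Matrix.toLin' A)]
    congr 1
    simp [LinearMap.toMatrix_eq_toMatrix']
  have hdet : Y.det ≠ 0 := by
    rw [hY, LinearMap.det_toMatrix, LinearMap.det_toLin']
    exact hX
  have e1 : Y 0 0 + Y 1 1 = 0 := by
    have h2 := htr 1
    rw [← htrace, hmul, hdiag, ← hY, Matrix.trace_fin_two] at h2
    simp only [h1, Matrix.diagonal_mul, one_mul] at h2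
    exact h2
  have e2 : χ 0 t * Y 0 0 + χ 1 t * Y 1 1 = 0 := by
    have h2 := htr t
    rw [← htrace, hmul, hdiag, ← hY, Matrix.trace_fin_two] at h2
    simp only [Matrix.diagonal_mul] at h2
    exact h2
  have h3 : Y * Matrix.diagonal (fun i => χ i t) = Matrix.diagonal (fun i => χ i t') * Y := by
    rw [hY, ← hdiag, ← hmul, hc, hmul, hdiag]
  have e3 : Y 0 1 * χ 1 t = χ 0 t' * Y 0 1 := by
    have := congrFun (congrFun h3 0) 1
    simpa [Matrix.mul_diagonal, Matrix.diagonal_mul] using this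
  have e4 : Y 0 0 * χ 0 t = χ 0 t' * Y 0 0 := by
    have := congrFun (congrFun h3 0) 0
    simpa [Matrix.mul_diagonal, Matrix.diagonal_mul] using this
  by_cases h01 : Y 0 1 = 0
  · have h00 : Y 0 0 ≠ 0 := by
      intro h00
      apply hdet
      rw [Matrix.det_fin_two, h01, h00]
      ring
    have e5 : Y 0 0 * (χ 0 t - χ 1 t) = 0 := by linear_combination e2 - χ 1 t * e1
    have e6 := (mul_eq_zero.1 e5).resolve_left h00
    have e7 : Y 0 0 * (χ 0 t - χ 0 t') = 0 := by linear_combination e4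
    have e8 := (mul_eq_zero.1 e7).resolve_left h00
    linear_combination e6 - e8
  · have e5 : Y 0 1 * (χ 1 t - χ 0 t') = 0 := by linear_combination e3
    have e6 := (mul_eq_zero.1 e5).resolve_left h01
    linear_combination -e6

end Pool.Agent.K4H15.BZ
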