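import Pool.Agent.K4H15.BZ.Bas
import Pool.Agent.K4H15.BZ.Kro
import Pool.Agent.K4H15.BW.Gal

/-!
The Frobenius automorphisms of a Galois extension `F` of `ℚ` which is multiquadratic over `K`.
-/

set_option autoImplicit false

namespace Pool.Agent.K4H15.BZ

open NumberField IsDedekindDomain
open scoped Pointwise
open Pool.Agent.K4H55.BI (IQ sym gen gen_span gen_dvd gen_prime gen_na)
open Pool.Agent.K4H55.BD (tau tv tau_tau tau_int mul_tau mem_tv res_int int_mem norm_gen nv_cases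
  uniq_over two_notMem pv pv_twist fin_over norm_eq char_ne_two cjK coe_tau cjK_cjK low mem_low)
open Pool.Agent.R431.B (FrobSet frob_iff frob_nonempty frob_conj trans_over frob_stab inc inc_inj
  exists_place)

variable {K F : Type} [Field K] [NumberField K] [Field F] [NumberField F] [Algebra K F]
  {σ : K →+* ℂ} {δ : K}

/-- `s` fixes `K` -/
def Fx (K : Type) {F : Type} [Field K] [Field F] [CharZero F] [Algebra K F] (s : F ≃ₐ[ℚ] F) : Prop :=
  ∀ k : K, s (algebraMap K F k) = algebraMap K F k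

/-- `s` is the complex conjugation on `K` -/
def Cx (h : IQ K σ δ) (s : F ≃ₐ[ℚ] F) : Prop :=
  ∀ k : K, s (algebraMap K F k) = algebraMap K F (cjK h k)

lemma fix_or (h : IQ K σ δ) (s : F ≃ₐ[ℚ] F) : Fx K s ∨ Cx h s := by
  have h1 : ∀ k : K, s (algebraMap K F k) = algebraMap K F k ∨
      s (algebraMap K F k) = algebraMap K F (cjK h k) := fun k =>
    BW.hom_conj h (algebraMap K F) (s : F →+* F) k
  by_contra hcon
  rw [not_or] at hcon
  unfold Fx Cx at hcon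
  push Not at hcon
  obtain ⟨⟨k1, hk1⟩, ⟨k2, hk2⟩⟩ := hcon
  have e1 := (h1 k1).resolve_left hk1
  have e2 := (h1 k2).resolve_right hk2
  rcases h1 (k1 + k2) with h3 | h3
  · simp only [map_add] at h3
    rw [e2, add_left_inj] at h3
    exact hk1 h3
  · simp only [map_add] at h3
    rw [e1, add_right_inj] at h3
    exact hk2 h3

lemma not_both (h : IQ K σ δ) {s : F ≃ₐ[ℚ] F} (h1 : Fx K s) (h2 : Cx h s) : False := by
  obtain ⟨x, hx⟩ := exists_moved h
  apply hx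
  have h3 := (h1 (x : K)).symm.trans (h2 (x : K))
  have h4 := (algebraMap K F).injective h3
  rw [← coe_tau] at h4
  rw [sub_eq_zero]
  exact RingOfIntegers.ext h4

lemma range_fix {s : F ≃ₐ[ℚ] F} (hs : Fx K s) : ∃ t : F ≃ₐ[K] F, inc K F t = s :=
  ⟨AlgEquiv.ofRingEquiv (f := (s : F ≃+* F)) (fun x => hs x), AlgEquiv.ext fun x => rfl⟩

lemma fx_inc (t : F ≃ₐ[K] F) : Fx K (inc K F t) := fun k => t.commutes k

lemma Cx.mul (h : IQ K σ δ) {s s' : F ≃ₐ[ℚ] F} (h1 : Cx h s) (h2 : Cx h s') : Fx K (s * s') := by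
  intro k
  rw [AlgEquiv.mul_apply, h2, h1, cjK_cjK]

lemma Fx.mul {s s' : F ≃ₐ[ℚ] F} (h1 : Fx K s) (h2 : Fx K s') : Fx K (s * s') := by
  intro k
  rw [AlgEquiv.mul_apply, h2, h1]

lemma Fx.mul_cx (h : IQ K σ δ) {s s' : F ≃ₐ[ℚ] F} (h1 : Fx K s) (h2 : Cx h s') : Cx h (s * s') := by
  intro k
  rw [AlgEquiv.mul_apply, h2, h1]

lemma Fx.inv {s : F ≃ₐ[ℚ] F} (h1 : Fx K s) : Fx K s⁻¹ := by
  intro k
  have h2 : s⁻¹ (s (algebraMap K F k)) = algebraMap K F k := by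
    rw [← AlgEquiv.mul_apply, inv_mul_cancel, AlgEquiv.one_apply]
  rwa [h1 k] at h2

lemma Cx.inv (h : IQ K σ δ) {s : F ≃ₐ[ℚ] F} (h1 : Cx h s) : Cx h s⁻¹ := by
  intro k
  have h2 : s⁻¹ (s (algebraMap K F (cjK h k))) = algebraMap K F (cjK h k) := by
    rw [← AlgEquiv.mul_apply, inv_mul_cancel, AlgEquiv.one_apply]
  rwa [h1, cjK_cjK] at h2

lemma fx_smul {s : F ≃ₐ[ℚ] F} (hs : Fx K s) (x : 𝓞 K) :
    s • algebraMap (𝓞 K) (𝓞 F) x = algebraMap (𝓞 K) (𝓞 F) x := by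
  apply RingOfIntegers.ext
  exact hs (x : K)

lemma cx_smul (h : IQ K σ δ) {s : F ≃ₐ[ℚ] F} (hs : Cx h s) (x : 𝓞 K) :
    s • algebraMap (𝓞 K) (𝓞 F) x = algebraMap (𝓞 K) (𝓞 F) (tau h x) := by
  apply RingOfIntegers.ext
  refine (hs (x : K)).trans ?_
  rw [← coe_tau]
  rfl

section frob

variable {p : ℕ} {v : HeightOneSpectrum (𝓞 F)}

lemma mem_low_nat : (p : 𝓞 K) ∈ (low (K := K) v).asIdeal ↔ (p : 𝓞 F) ∈ v.asIdeal := by
  rw [mem_low, map_natCast]

lemma frob_split (h : IQ K σ δ) (hp : p.Prime) (hpv : (p : 𝓞 F) ∈ v.asIdeal)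
    (hr : (p : 𝓞 K) ∉ (low (K := K) v).asIdeal ^ 2)
    (hN : Ideal.absNorm (low (K := K) v).asIdeal = p) {s : F ≃ₐ[ℚ] F} (hs : s ∈ FrobSet v) :
    Fx K s := by
  refine (fix_or h s).resolve_right fun hc => ?_
  obtain ⟨x, hx⟩ := unr_of h hp (mem_low_nat.2 hpv) hr
  apply hx
  have h1 := (frob_iff hp hpv s).1 hs (algebraMap (𝓞 K) (𝓞 F) x)
  rw [cx_smul h hc, ← map_pow, ← map_sub, ← mem_low] at h1
  have h2 := (low (K := K) v).asIdeal.add_mem h1 (pow_split hp hN x)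
  rw [sub_add_sub_cancel] at h2
  rw [← neg_sub]
  exact (low (K := K) v).asIdeal.neg_mem h2

lemma frob_inert (h : IQ K σ δ) (hp : p.Prime) (hpv : (p : 𝓞 F) ∈ v.asIdeal)
    (hN : Ideal.absNorm (low (K := K) v).asIdeal = p ^ 2) {s : F ≃ₐ[ℚ] F} (hs : s ∈ FrobSet v) :
    Cx h s := by
  refine (fix_or h s).resolve_left fun hc => ?_
  obtain ⟨x, hx⟩ := pow_inert hp hN
  apply hx
  have h1 := (frob_iff hp hpv s).1 hs (algebraMap (𝓞 K) (𝓞 F) x)
  rw [fx_smul hc, ← map_pow, ← map_sub, ← mem_low] at h1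
  rw [← neg_sub]
  exact (low (K := K) v).asIdeal.neg_mem h1

lemma frob_sq (hp : p.Prime) (hpv : (p : 𝓞 F) ∈ v.asIdeal) {s : F ≃ₐ[ℚ] F}
    (hs : s ∈ FrobSet v) (x : 𝓞 F) : (s * s) • x - x ^ (p ^ 2) ∈ v.asIdeal := by
  have h3 : ∀ x : 𝓞 F, s • x - x ^ p ∈ v.asIdeal := (frob_iff hp hpv s).1 hs
  have h5 : (s • x) ^ p - (x ^ p) ^ p ∈ v.asIdeal :=
    Ideal.mem_of_dvd _ (sub_dvd_pow_sub_pow (s • x) (x ^ p) p) (h3 x)
  rw [mul_smul, pow_two p, pow_mul]
  have h6 := v.asIdeal.add_mem (h3 (s • x)) h5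
  rwa [sub_add_sub_cancel] at h6

end frob

section root

variable {v : HeightOneSpectrum (𝓞 F)} {B : 𝓞 K} {y : F}

lemma y_int (hy : y ^ 2 = algebraMap K F (B : K)) :
    ∃ Y : 𝓞 F, (Y : F) = y ∧ Y ^ 2 = algebraMap (𝓞 K) (𝓞 F) B := by
  have h1 : IsIntegral ℤ (algebraMap K F (B : K)) := (RingOfIntegers.isIntegral_coe B).map
    ((algebraMap K F).toIntAlgHom)
  have h2 : IsIntegral ℤ y := by
    apply IsIntegral.of_pow two_pos
    rw [hy]
    exact h1
  exact ⟨⟨y, h2⟩, rfl, RingOfIntegers.ext hy⟩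

/-- the Frobenius automorphism at an odd place -/
lemma frob_sym (h2 : (2 : 𝓞 K) ∉ (low (K := K) v).asIdeal) (hB : B ∉ (low (K := K) v).asIdeal)
    (hy : y ^ 2 = algebraMap K F (B : K)) {t : F ≃ₐ[K] F}
    (ht : ∀ x : 𝓞 F, t • x - x ^ Ideal.absNorm (low (K := K) v).asIdeal ∈ v.asIdeal) :
    (t y = y → sym (low (K := K) v) B = 1) ∧ (t y = -y → sym (low (K := K) v) B = -1) := by
  obtain ⟨Y, hY, hY2⟩ := y_int hy
  obtain ⟨h3, h4, h5⟩ := euler_crit h2 hB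
  set w := low (K := K) v with hw
  set q := Ideal.absNorm w.asIdeal with hq
  have hYv : Y ∉ v.asIdeal := by
    intro h6
    apply hB
    rw [mem_low, ← hY2]
    exact Ideal.pow_mem_of_mem _ h6 2 two_pos
  have hpow : Y ^ q = Y * algebraMap (𝓞 K) (𝓞 F) (B ^ (q / 2)) := by
    have e : q = 2 * (q / 2) + 1 := by omega
    rw [map_pow, ← hY2, ← pow_mul, ← pow_succ', ← e]
  have h6 := ht Y
  rw [hpow] at h6
  have h2v : (2 : 𝓞 F) ∉ v.asIdeal := by
    intro h7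
    apply h2
    rw [mem_low, map_ofNat]
    exact h7
  constructor
  · intro h7
    have h8 : t • Y = Y := RingOfIntegers.ext (by rw [← hY] at h7; exact h7)
    rw [h8] at h6
    have e : Y - Y * algebraMap (𝓞 K) (𝓞 F) (B ^ (q / 2)) =
        Y * algebraMap (𝓞 K) (𝓞 F) (-(B ^ (q / 2) - 1)) := by
      rw [map_neg, map_sub, map_one]
      ring
    rw [e] at h6
    have h9 := (v.isPrime.mem_or_mem h6).resolve_left hYv
    rw [← mem_low, neg_mem_iff] at h9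
    exact h3.1 h9
  · intro h7
    have h8 : t • Y = -Y := RingOfIntegers.ext (by rw [← hY] at h7; exact h7)
    rw [h8] at h6
    refine h4.resolve_left fun h9 => ?_
    have h10 := h3.2 h9
    rw [mem_low, map_sub, map_one] at h10
    have h11 := v.asIdeal.add_mem h6 (v.asIdeal.mul_mem_left Y h10)
    have e : -Y - Y * algebraMap (𝓞 K) (𝓞 F) (B ^ (q / 2)) +
        Y * (algebraMap (𝓞 K) (𝓞 F) (B ^ (q / 2)) - 1) = -(2 * Y) := by ring
    rw [e, neg_mem_iff] at h11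
    rcases v.isPrime.mem_or_mem h11 with h12 | h12
    · exact h2v h12
    · exact hYv h12

/-- the automorphisms that preserve a place over two -/
lemma root_two (h2 : (2 : 𝓞 K) ∈ (low (K := K) v).asIdeal) (h8 : (8 : 𝓞 K) ∣ B - 1)
    (hy : y ^ 2 = algebraMap K F (B : K)) {t : F ≃ₐ[K] F}
    (ht : ∀ x ∈ v.asIdeal, t • x ∈ v.asIdeal) : t y ≠ -y := by
  intro hty
  obtain ⟨m, hm⟩ := h8
  have h2v : (2 : 𝓞 F) ∈ v.asIdeal := by
    rw [mem_low, map_ofNat] at h2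
    exact h2
  have hB : (B : K) = 1 + 8 * (m : K) := by
    have h3 := congrArg (fun z : 𝓞 K => (z : K)) hm
    simp only [map_sub, map_mul, map_one, map_ofNat] at h3
    linear_combination h3
  set T : F := (y - 1) / 2 with hT
  have hT2 : T ^ 2 + T = algebraMap K F (2 * (m : K)) := by
    have h3 : y ^ 2 = 1 + 8 * algebraMap K F (m : K) := by
      rw [hy, hB]
      simp only [map_add, map_mul, map_one, map_ofNat]
    rw [map_mul, map_ofNat, hT]
    linear_combination (1 / 4) * h3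
  have hTint : IsIntegral ℤ T := by
    have h3 : IsIntegral (𝓞 K) T := by
      refine ⟨Polynomial.X ^ 2 + Polynomial.X - Polynomial.C (2 * m), ?_, ?_⟩
      · monicity!
      · rw [Polynomial.eval₂_sub, Polynomial.eval₂_add, Polynomial.eval₂_pow, Polynomial.eval₂_X,
          Polynomial.eval₂_C, hT2, sub_eq_zero]
        rw [IsScalarTower.algebraMap_apply (𝓞 K) K F, map_mul (algebraMap (𝓞 K) K), map_ofNat]
    exact isIntegral_trans T h3
  obtain ⟨TI, hTI⟩ : ∃ TI : 𝓞 F, algebraMap (𝓞 F) F TI = T := ⟨⟨T, hTint⟩, rfl⟩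
  have h3 : TI * (TI + 1) = 2 * algebraMap (𝓞 K) (𝓞 F) m := by
    apply RingOfIntegers.ext
    simp only [map_mul, map_add, map_one, map_ofNat]
    rw [hTI]
    have h4 : algebraMap (𝓞 F) F (algebraMap (𝓞 K) (𝓞 F) m) = algebraMap K F (m : K) := rfl
    rw [h4]
    rw [map_mul, map_ofNat] at hT2
    linear_combination hT2
  have h4 : t • TI = -TI - 1 := by
    apply RingOfIntegers.ext
    have h5 : algebraMap (𝓞 F) F (t • TI) = t (algebraMap (𝓞 F) F TI) := rfl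
    show algebraMap (𝓞 F) F (t • TI) = algebraMap (𝓞 F) F (-TI - 1)
    rw [h5, hTI]
    simp only [map_neg, map_sub, map_one]
    rw [hTI, hT, map_div₀, map_sub, hty, map_one, map_ofNat]
    ring
  have h5 : TI * (TI + 1) ∈ v.asIdeal := by
    rw [h3]
    exact v.asIdeal.mul_mem_right _ h2v
  have hone : (1 : 𝓞 F) ∉ v.asIdeal := fun h6 => v.isPrime.ne_top ((Ideal.eq_top_iff_one _).2 h6)
  rcases v.isPrime.mem_or_mem h5 with h6 | h6
  · have h7 := ht _ h6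
    rw [h4] at h7
    have h8 := v.asIdeal.add_mem h7 h6
    rw [show -TI - 1 + TI = -1 by ring, neg_mem_iff] at h8
    exact hone h8
  · have h7 := ht _ h6
    rw [smul_add, h4, smul_one] at h7
    have h8 := v.asIdeal.add_mem h7 h6
    rw [show -TI - 1 + 1 + (TI + 1) = 1 by ring] at h8
    exact hone h8

/-- the inertia group -/
lemma root_inertia (hB : (2 : 𝓞 K) ∉ (low (K := K) v).asIdeal → B ∉ (low (K := K) v).asIdeal)
    (h8 : (8 : 𝓞 K) ∣ B - 1) (hy : y ^ 2 = algebraMap K F (B : K)) {t : F ≃ₐ[K] F}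
    (ht : ∀ x : 𝓞 F, t • x - x ∈ v.asIdeal) : t y ≠ -y := by
  by_cases h2 : (2 : 𝓞 K) ∈ (low (K := K) v).asIdeal
  · refine root_two h2 h8 hy fun x hx => ?_
    have h3 := v.asIdeal.add_mem (ht x) hx
    rwa [sub_add_cancel] at h3
  · intro hty
    obtain ⟨Y, hY, hY2⟩ := y_int hy
    have h3 : t • Y = -Y := RingOfIntegers.ext (by rw [← hY] at hty; exact hty)
    have h4 := ht Y
    rw [h3, show -Y - Y = -(2 * Y) by ring, neg_mem_iff] at h4
    rcases v.isPrime.mem_or_mem h4 with h5 | h5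
    · apply h2
      rw [mem_low, map_ofNat]
      exact h5
    · apply hB h2
      rw [mem_low, ← hY2]
      exact Ideal.pow_mem_of_mem _ h5 2 two_pos

/-- the symbol and the Frobenius automorphism -/
lemma frob_lam (hB : (2 : 𝓞 K) ∉ (low (K := K) v).asIdeal → B ∉ (low (K := K) v).asIdeal)
    (h8 : (8 : 𝓞 K) ∣ B - 1) (hy : y ^ 2 = algebraMap K F (B : K)) {t : F ≃ₐ[K] F}
    (ht : ∀ x : 𝓞 F, t • x - x ^ Ideal.absNorm (low (K := K) v).asIdeal ∈ v.asIdeal) {z : ℂ}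
    (hz : (t y = y ∧ z = 1) ∨ (t y = -y ∧ z = -1)) : lam (low (K := K) v) B = z := by
  classical
  unfold lam
  by_cases h2 : (2 : 𝓞 K) ∈ (low (K := K) v).asIdeal
  · rw [if_pos h2]
    rcases hz with ⟨_, h3⟩ | ⟨h3, _⟩
    · exact h3.symm
    · refine absurd h3 (root_two h2 h8 hy fun x hx => ?_)
      have h4 := v.asIdeal.add_mem (ht x) (Ideal.pow_mem_of_mem _ hx _
        (lt_of_lt_of_le two_pos (two_le_norm (low (K := K) v))))
      rwa [sub_add_cancel] at h4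
  · rw [if_neg h2]
    obtain ⟨h3, h4⟩ := frob_sym h2 (hB h2) hy ht
    rcases hz with ⟨h5, h6⟩ | ⟨h5, h6⟩
    · rw [h3 h5, h6]
    · rw [h4 h5, h6]

end root

/-- the extension `F` of `K` is multiquadratic, with the square roots of elements of `𝒟` -/
structure KD (K : Type) [Field K] [NumberField K] (𝒟 : Set (𝓞 K)) (F : Type) [Field F]
    [NumberField F] [Algebra K F] : Prop where
  comm : ∀ s t : F ≃ₐ[K] F, s * t = t * s
  chi : ∀ χ : (F ≃ₐ[K] F) →* ℂ, ∃ D ∈ 𝒟, ∃ y : F, y ^ 2 = algebraMap K F (D : K) ∧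
    ∀ t : F ≃ₐ[K] F, (t y = y ∧ χ t = 1) ∨ (t y = -y ∧ χ t = -1)

section sep

variable {𝒟 : Set (𝓞 K)}

lemma KD.sep (hF : KD K 𝒟 F) {t : F ≃ₐ[K] F} (ht : ∀ χ : (F ≃ₐ[K] F) →* ℂ, χ t = 1) : t = 1 := by
  by_contra hne
  let G := F ≃ₐ[K] F
  let _ : CommGroup G := { (inferInstance : Group (F ≃ₐ[K] F)) with mul_comm := hF.comm }
  have hfin : Finite G := inferInstanceAs (Finite (F ≃ₐ[K] F))
  obtain ⟨φ, hφ⟩ := CommGroup.exists_apply_ne_one_of_hasEnoughRootsOfUnity G ℂ (a := t) hne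
  apply hφ
  apply Units.ext
  exact ht ((Units.coeHom ℂ).comp φ)

/-- the square of an automorphism that fixes `K` -/
lemma KD.sq (hF : KD K 𝒟 F) (t : F ≃ₐ[K] F) : t * t = 1 := by
  apply hF.sep
  intro χ
  obtain ⟨D, _, y, _, hy⟩ := hF.chi χ
  rw [map_mul]
  rcases hy t with ⟨_, h⟩ | ⟨_, h⟩ <;> rw [h] <;> norm_num

/-- the fourth power of an automorphism -/
lemma KD.four (hF : KD K 𝒟 F) (h : IQ K σ δ) (s : F ≃ₐ[ℚ] F) : s ^ 4 = 1 := by
  have h1 : Fx K (s * s) := by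
    rcases fix_or h s with h2 | h2
    · exact h2.mul h2
    · exact Cx.mul h h2 h2
  obtain ⟨t, ht⟩ := range_fix h1
  have h2 := hF.sq t
  have h3 : s ^ 4 = (s * s) * (s * s) := by
    rw [← pow_two, ← pow_two, ← pow_mul]
  rw [h3, ← ht, ← map_mul, h2, map_one]

end sep

section single

variable {𝒟 : Set (𝓞 K)} {p : ℕ} {v : HeightOneSpectrum (𝓞 F)}

/-- the Frobenius automorphism at an unramified place -/
theorem frob_single (h : IQ K σ δ) (hF : KD K 𝒟 F) (hp : p.Prime) (hpv : (p : 𝓞 F) ∈ v.asIdeal)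
    (hr : (p : 𝓞 K) ∉ (low (K := K) v).asIdeal ^ 2)
    (hB : ∀ χ : (F ≃ₐ[K] F) →* ℂ, ∃ D y, (8 : 𝓞 K) ∣ D - 1 ∧
      ((2 : 𝓞 K) ∉ (low (K := K) v).asIdeal → D ∉ (low (K := K) v).asIdeal) ∧
      y ^ 2 = algebraMap K F (D : K) ∧
      ∀ t : F ≃ₐ[K] F, (t y = y ∧ χ t = 1) ∨ (t y = -y ∧ χ t = -1))
    {s : F ≃ₐ[ℚ] F} (hs : s ∈ FrobSet v) : FrobSet v = {s} := by
  apply Set.eq_singleton_iff_unique_mem.2
  refine ⟨hs, fun s' hs' => ?_⟩
  have h1 : Fx K (s' * s⁻¹) := by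
    obtain ⟨p', hp', hpw', hN⟩ := nv_cases h (low (K := K) v)
    obtain rfl := uniq_over hp' hp hpw' (mem_low_nat.2 hpv)
    rcases hN with hN | hN
    · exact (frob_split h hp hpv hr hN hs').mul (frob_split h hp hpv hr hN hs).inv
    · exact Cx.mul h (frob_inert h hp hpv hN hs') (Cx.inv h (frob_inert h hp hpv hN hs))
  obtain ⟨t, ht⟩ := range_fix h1
  have h2 : ∀ x : 𝓞 F, t • x - x ∈ v.asIdeal := by
    intro x
    have h5 := IsArithFrobAt.mul_inv_mem_inertia (R := ℤ) hs' hs x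
    rw [← ht] at h5
    exact h5
  have h3 : t = 1 := by
    apply hF.sep
    intro χ
    obtain ⟨D, y, h8, hD, hy, hχ⟩ := hB χ
    rcases hχ t with ⟨_, h4⟩ | ⟨h4, _⟩
    · exact h4
    · exact absurd h4 (root_inertia hD h8 hy h2)
  rw [h3, map_one] at ht
  exact mul_inv_eq_one.1 ht.symm

end single

end Pool.Agent.K4H15.BZ
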