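import Pool.Agent.K4H15.BZ.Asm

/-!
Irreducible representations.
-/

set_option autoImplicit false

namespace Pool.Agent.K4H15.BZ

open NumberField IsDedekindDomain Matrix
open scoped Pointwise Kronecker
open Pool.Agent.K4H55.BI (IQ)
open Pool.Agent.K4H55.BD (cjK cjK_cjK pv)
open Pool.Agent.R431.B (inc inc_inj)
open Pool.Agent.K4H15.BT (Eig cM cM_mul cM_one cM_inv cM_inv')
open Pool.Agent.K4H15.BW (NVD)

variable {K F : Type} [Field K] [NumberField K] [Field F] [NumberField F] [Algebra K F]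
  {σ : K →+* ℂ} {δ : K} {𝒟 : Set (𝓞 K)}

/-- there is no common eigenvector -/
def Irr {G : Type} [Group G] (ρ : G →* GL (Fin 2) ℂ) : Prop :=
  ∀ x : Fin 2 → ℂ, x ≠ 0 → ¬ ∀ s, ∃ l : ℂ, (ρ s : Matrix (Fin 2) (Fin 2) ℂ).mulVec x = l • x

lemma kp_swap (t d t' d' α : ℂ) : kp t d t' d' α = kp t' d' t d α := by
  unfold kp
  ring

theorem trace_irr (h : IQ K σ δ) (hF : KD K 𝒟 F) {ρ : (F ≃ₐ[ℚ] F) →* GL (Fin 2) ℂ}
    (hirr : Irr ρ) (s : F ≃ₐ[ℚ] F) (hs : ¬ Fx K s) : (cM (ρ s)).trace = 0 := by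
  classical
  have hsc : Cx h s := (fix_or h s).resolve_left hs
  obtain ⟨b, χ, hb⟩ := exists_eig' hF.comm (ρ.comp (inc K F))
  have hb1 : ∀ (t : F ≃ₐ[K] F) i, (cM (ρ (inc K F t))).mulVec (b i) = χ i t • b i := hb
  set X := cM (ρ s) with hX
  -- a common eigenvector
  have hcom : ∀ x : Fin 2 → ℂ, x ≠ 0 →
      (∀ t : F ≃ₐ[K] F, ∃ l : ℂ, (cM (ρ (inc K F t))).mulVec x = l • x) →
      ∀ l : ℂ, X.mulVec x ≠ l • x := by
    intro x hx h1 l hl
    apply hirr x hx
    intro g
    rcases fix_or (K := K) h g with h2 | h2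
    · obtain ⟨t, rfl⟩ := range_fix h2
      exact h1 t
    · obtain ⟨t, ht⟩ := range_fix (Cx.mul h (Cx.inv h hsc) h2)
      obtain ⟨l', hl'⟩ := h1 t
      have e : g = s * inc K F t := by rw [ht]; group
      refine ⟨l' * l, ?_⟩
      show (cM (ρ g)).mulVec x = _
      rw [e, map_mul, cM_mul, ← Matrix.mulVec_mulVec, hl', Matrix.mulVec_smul, ← hX, hl, smul_smul]
  -- the coordinates
  have hexp : ∀ x : Fin 2 → ℂ, x = b.repr x 0 • b 0 + b.repr x 1 • b 1 := by
    intro x
    conv_lhs => rw [← b.sum_repr x, Fin.sum_univ_two]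
  have key : ∀ (i : Fin 2) (t : F ≃ₐ[K] F), ∃ l : ℂ, ∀ j,
      (χ j t - l) * b.repr (X.mulVec (b i)) j = 0 := by
    intro i t
    obtain ⟨t', ht'⟩ : ∃ t' : F ≃ₐ[K] F, inc K F t' = s⁻¹ * inc K F t * s := by
      apply range_fix
      rw [mul_assoc]
      exact Cx.mul h (Cx.inv h hsc) (Fx.mul_cx h (fx_inc t) hsc)
    have h1 : (cM (ρ (inc K F t))).mulVec (X.mulVec (b i)) = χ i t' • X.mulVec (b i) := by
      rw [Matrix.mulVec_mulVec, hX, ← cM_mul, ← map_mul]
      have e : inc K F t * s = s * inc K F t' := by rw [ht']; group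
      rw [e, map_mul, cM_mul, ← Matrix.mulVec_mulVec, hb1, Matrix.mulVec_smul]
    refine ⟨χ i t', fun j => ?_⟩
    set z := X.mulVec (b i) with hz
    have h2 : (cM (ρ (inc K F t))).mulVec z =
        (b.repr z 0 * χ 0 t) • b 0 + (b.repr z 1 * χ 1 t) • b 1 := by
      conv_lhs => rw [hexp z, Matrix.mulVec_add, Matrix.mulVec_smul, Matrix.mulVec_smul, hb1, hb1,
        smul_smul, smul_smul]
    rw [h1] at h2
    have h3 := congrArg (fun w => b.repr w j) h2
    simp only [map_smul, map_add, Finsupp.smul_apply, Finsupp.add_apply, smul_eq_mul,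
      Module.Basis.repr_self] at h3
    fin_cases j
    · simp at h3
      show (χ 0 t - χ i t') * b.repr z 0 = 0
      linear_combination -h3
    · simp at h3
      show (χ 1 t - χ i t') * b.repr z 1 = 0
      linear_combination -h3
  have hscal : ¬ ∀ t : F ≃ₐ[K] F, χ 0 t = χ 1 t := by
    intro h1
    obtain ⟨l, hl⟩ := Module.End.exists_eigenvalue (Matrix.toLin' X)
    obtain ⟨x, hx⟩ := hl.exists_hasEigenvector
    have h2 : X.mulVec x = l • x := by
      have := hx.apply_eq_smul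
      rwa [Matrix.toLin'_apply] at this
    refine hcom x hx.2 (fun t => ⟨χ 0 t, ?_⟩) l h2
    refine eig_ext (b := b) (fun i => ?_) x
    show (cM (ρ (inc K F t))).mulVec (b i) = χ 0 t • b i
    rw [hb1]
    fin_cases i
    · rfl
    · simp only [Fin.mk_one, h1 t]
  have hdiag : ∀ i, b.repr (X.mulVec (b i)) i = 0 := by
    intro i
    by_contra hne
    -- the other index
    by_cases hj : ∀ j, j ≠ i → b.repr (X.mulVec (b i)) j = 0
    · refine hcom (b i) (b.ne_zero i) (fun t => ⟨χ i t, hb1 t i⟩)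
        (b.repr (X.mulVec (b i)) i) ?_
      conv_lhs => rw [hexp (X.mulVec (b i))]
      fin_cases i
      · have h1 := hj 1 (by decide)
        simp only [Fin.zero_eta, Fin.isValue] at h1 ⊢
        rw [h1, zero_smul, add_zero]
      · have h1 := hj 0 (by decide)
        simp only [Fin.mk_one, Fin.isValue] at h1 ⊢
        rw [h1, zero_smul, zero_add]
    · push Not at hj
      obtain ⟨j, hji, hj0⟩ := hj
      apply hscal
      intro t
      obtain ⟨l, hl⟩ := key i t
      have e1 := (mul_eq_zero.1 (hl i)).resolve_right hne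
      have e2 := (mul_eq_zero.1 (hl j)).resolve_right hj0
      have e3 : χ i t = χ j t := by linear_combination e1 - e2
      fin_cases i <;> fin_cases j
      · exact absurd rfl hji
      · exact e3
      · exact e3.symm
      · exact absurd rfl hji
  have h1 : X.trace = (LinearMap.toMatrix b b (Matrix.toLin' X)).trace := by
    rw [← LinearMap.trace_eq_matrix_trace ℂ b (Matrix.toLin' X),
      LinearMap.trace_eq_matrix_trace ℂ (Pi.basisFun ℂ (Fin 2)) (Matrix.toLin' X)]
    congr 1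
    simp [LinearMap.toMatrix_eq_toMatrix']
  rw [h1, Matrix.trace_fin_two, LinearMap.toMatrix_apply, LinearMap.toMatrix_apply,
    Matrix.toLin'_apply, Matrix.toLin'_apply, hdiag, hdiag, add_zero]

end Pool.Agent.K4H15.BZ
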