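import Mathlib

/-!
Kummer theory of exponent two over a group of radicands.
-/

set_option autoImplicit false

namespace Pool.Agent.K4H15.BZ

variable {K Ω : Type} [Field K] [Field Ω] [Algebra K Ω]

/-- the sign of an automorphism on a square root -/
lemma sq_sign {x : Ω} {D : K} (hx : x ^ 2 = algebraMap K Ω D) (t : Ω ≃ₐ[K] Ω) :
    t x = x ∨ t x = -x := by
  have h1 : (t x) ^ 2 = x ^ 2 := by
    rw [← map_pow, hx, AlgEquiv.commutes]
  exact sq_eq_sq_iff_eq_or_eq_neg.1 h1

/-- the character of a square root -/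
noncomputable def signHom [CharZero Ω] (x : Ω) (D : K) (hx : x ^ 2 = algebraMap K Ω D) (h0 : x ≠ 0) :
    (Ω ≃ₐ[K] Ω) →* ℂ := by
  classical
  exact
  { toFun := fun t => if t x = x then 1 else -1
    map_one' := by simp
    map_mul' := by
      intro s t
      have hne : -x ≠ x := fun h => h0 (self_eq_neg.1 h.symm)
      rcases sq_sign hx s with h1 | h1 <;> rcases sq_sign hx t with h2 | h2 <;>
        simp [AlgEquiv.mul_apply, h1, h2, hne] }

lemma signHom_apply [CharZero Ω] (x : Ω) (D : K) (hx : x ^ 2 = algebraMap K Ω D) (h0 : x ≠ 0)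
    (t : Ω ≃ₐ[K] Ω) : (t x = x ∧ signHom x D hx h0 t = 1) ∨
      (t x = -x ∧ signHom x D hx h0 t = -1) := by
  have hne : -x ≠ x := fun h => h0 (self_eq_neg.1 h.symm)
  rcases sq_sign hx t with h1 | h1
  · exact Or.inl ⟨h1, by simp [signHom, h1]⟩
  · exact Or.inr ⟨h1, by simp [signHom, h1, hne]⟩

/-- the induction on the number of square roots -/
lemma char_step [CharZero Ω] {𝒟 : Set K} (h1 : (1 : K) ∈ 𝒟) (h0 : ∀ D ∈ 𝒟, D ≠ 0)
    (hmul : ∀ D ∈ 𝒟, ∀ D' ∈ 𝒟, ∃ D3 ∈ 𝒟, ∃ g : K, g ≠ 0 ∧ D3 * g ^ 2 = D * D')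
    (T : Finset Ω) (hT : ∀ x ∈ T, ∃ D ∈ 𝒟, x ^ 2 = algebraMap K Ω D) :
    ∀ χ : (Ω ≃ₐ[K] Ω) →* ℂ, (∀ t, χ t = 1 ∨ χ t = -1) →
      (∀ t : Ω ≃ₐ[K] Ω, (∀ x ∈ T, t x = x) → χ t = 1) →
      ∃ D ∈ 𝒟, ∃ y : Ω, y ^ 2 = algebraMap K Ω D ∧
        ∀ t : Ω ≃ₐ[K] Ω, (t y = y ∧ χ t = 1) ∨ (t y = -y ∧ χ t = -1) := by
  classical
  induction T using Finset.induction_on with
  | empty =>
    intro χ _ h
    refine ⟨1, h1, 1, by simp, fun t => Or.inl ⟨map_one t, h t (by simp)⟩⟩
  | insert x T hxT ih =>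
    intro χ hχ hfix
    have ih' := ih (fun z hz => hT z (Finset.mem_insert_of_mem hz))
    by_cases hc : ∀ t : Ω ≃ₐ[K] Ω, (∀ z ∈ T, t z = z) → χ t = 1
    · exact ih' χ hχ hc
    · push Not at hc
      obtain ⟨t0, ht0, ht0'⟩ := hc
      have hm0 : χ t0 = -1 := (hχ t0).resolve_left ht0'
      obtain ⟨Dx, hDx, hx⟩ := hT x (Finset.mem_insert_self x T)
      have hx0 : x ≠ 0 := by
        rintro rfl
        rw [zero_pow two_ne_zero] at hx
        exact h0 Dx hDx ((map_eq_zero _).1 hx.symm)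
      have ht0x : t0 x = -x := by
        rcases sq_sign hx t0 with h2 | h2
        · exfalso
          apply ht0'
          apply hfix
          intro z hz
          rcases Finset.mem_insert.1 hz with rfl | hz
          · exact h2
          · exact ht0 z hz
        · exact h2
      have key := signHom_apply x Dx hx hx0
      generalize signHom x Dx hx hx0 = ψ at key
      obtain ⟨D2, hD2, y2, hy2, hy2'⟩ := ih' (χ * ψ) (by
        intro t
        rw [MonoidHom.mul_apply]
        rcases hχ t with h2 | h2 <;> rcases key t with ⟨_, h3⟩ | ⟨_, h3⟩ <;>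
          rw [h2, h3] <;> norm_num) (by
        intro t ht
        rw [MonoidHom.mul_apply]
        rcases key t with ⟨h3, h4⟩ | ⟨h3, h4⟩
        · rw [h4, mul_one]
          apply hfix
          intro z hz
          rcases Finset.mem_insert.1 hz with rfl | hz
          · exact h3
          · exact ht z hz
        · have h5 : χ (t * t0) = 1 := by
            apply hfix
            intro z hz
            rcases Finset.mem_insert.1 hz with rfl | hz
            · rw [AlgEquiv.mul_apply, ht0x, map_neg, h3, neg_neg]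
            · rw [AlgEquiv.mul_apply, ht0 z hz, ht z hz]
          rw [map_mul, hm0] at h5
          rw [h4]
          exact h5)
      obtain ⟨D3, hD3, g, hg, hDg⟩ := hmul D2 hD2 Dx hDx
      have hg' : algebraMap K Ω g ≠ 0 := (map_ne_zero _).2 hg
      refine ⟨D3, hD3, y2 * x / algebraMap K Ω g, ?_, ?_⟩
      · rw [div_pow, mul_pow, hy2, hx, ← map_mul, ← hDg, map_mul, map_pow]
        field_simp
      · intro t
        have hty : t (y2 * x / algebraMap K Ω g) = t y2 * t x / algebraMap K Ω g := by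
          rw [map_div₀, map_mul, AlgEquiv.commutes]
        rcases hy2' t with ⟨h2, h3⟩ | ⟨h2, h3⟩ <;> rcases key t with ⟨h4, h5⟩ | ⟨h4, h5⟩ <;>
          rw [MonoidHom.mul_apply, h5] at h3 <;> rw [hty, h2, h4]
        · exact Or.inl ⟨rfl, by simpa using h3⟩
        · exact Or.inr ⟨by ring, by linear_combination -h3⟩
        · exact Or.inr ⟨by ring, by simpa using h3⟩
        · exact Or.inl ⟨by ring, by linear_combination -h3⟩

theorem kummer {K Ω : Type} [Field K] [CharZero K] [Field Ω] [Algebra K Ω] [IsAlgClosure K Ω]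
    {𝒟 : Set K} (h1 : (1 : K) ∈ 𝒟) (h0 : ∀ D ∈ 𝒟, D ≠ 0)
    (hmul : ∀ D ∈ 𝒟, ∀ D' ∈ 𝒟, ∃ D3 ∈ 𝒟, ∃ g : K, g ≠ 0 ∧ D3 * g ^ 2 = D * D')
    (F : IntermediateField K Ω) [FiniteDimensional K F] [IsGalois K F]
    (hF : F ≤ IntermediateField.adjoin K {x : Ω | ∃ D ∈ 𝒟, x ^ 2 = algebraMap K Ω D}) :
    (∀ s t : F ≃ₐ[K] F, s * t = t * s) ∧
    ∀ χ : (F ≃ₐ[K] F) →* ℂ, ∃ D ∈ 𝒟, ∃ y : F, y ^ 2 = algebraMap K F D ∧
      ∀ t : F ≃ₐ[K] F, (t y = y ∧ χ t = 1) ∨ (t y = -y ∧ χ t = -1) := by
  classical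
  have hN : Normal K Ω := IsAlgClosure.normal K Ω
  have hG : IsGalois K Ω := ⟨⟩
  have hC : CharZero Ω := charZero_of_injective_algebraMap (algebraMap K Ω).injective
  have hNF : Normal K F := IsGalois.to_normal
  -- restriction
  have hsurj := AlgEquiv.restrictNormalHom_surjective (F := K) (K₁ := F) (E := Ω)
  have hres : ∀ (t : Ω ≃ₐ[K] Ω) (z : F),
      ((AlgEquiv.restrictNormalHom F t z : F) : Ω) = t (z : Ω) := by
    intro t z
    exact AlgEquiv.restrictNormal_commutes t F z
  -- two automorphisms that agree on the roots agree on `F`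
  have hagree : ∀ (T : Set Ω) (s t : Ω ≃ₐ[K] Ω), (∀ x ∈ T, s x = t x) →
      ∀ z ∈ IntermediateField.adjoin K T, s z = t z := by
    intro T s t hst z hz
    refine IntermediateField.adjoin_induction K (s := T) (p := fun z _ => s z = t z)
      (fun x hx => hst x hx) (fun k => by rw [AlgEquiv.commutes, AlgEquiv.commutes]) ?_ ?_ ?_ hz
    · intro x y _ _ hx hy
      rw [map_add, map_add, hx, hy]
    · intro x _ hx
      rw [map_inv₀, map_inv₀, hx]
    · intro x y _ _ hx hy
      rw [map_mul, map_mul, hx, hy]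
  have hcomm : ∀ s t : Ω ≃ₐ[K] Ω, ∀ z ∈ F, s (t z) = t (s z) := by
    intro s t z hz
    have := hagree _ (s * t) (t * s) (by
      rintro x ⟨D, hD, hx⟩
      rw [AlgEquiv.mul_apply, AlgEquiv.mul_apply]
      rcases sq_sign hx s with h2 | h2 <;> rcases sq_sign hx t with h3 | h3 <;>
        simp [h2, h3]) z (hF hz)
    simpa [AlgEquiv.mul_apply] using this
  have hsq : ∀ s : Ω ≃ₐ[K] Ω, ∀ z ∈ F, s (s z) = z := by
    intro s z hz
    have := hagree _ (s * s) 1 (by
      rintro x ⟨D, hD, hx⟩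
      rw [AlgEquiv.mul_apply, AlgEquiv.one_apply]
      rcases sq_sign hx s with h2 | h2 <;> simp [h2]) z (hF hz)
    simpa [AlgEquiv.mul_apply] using this
  refine ⟨?_, ?_⟩
  · intro s t
    obtain ⟨s', rfl⟩ := hsurj s
    obtain ⟨t', rfl⟩ := hsurj t
    ext z
    rw [AlgEquiv.mul_apply, AlgEquiv.mul_apply, hres, hres, hres, hres]
    exact hcomm s' t' z z.2
  · intro χ
    -- a finite set of roots
    obtain ⟨z, hz⟩ := Field.exists_primitive_element K F
    obtain ⟨T, hTS, hzT⟩ := IntermediateField.exists_finset_of_mem_adjoin (hF z.2)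
    have hFT : F ≤ IntermediateField.adjoin K (T : Set Ω) := by
      have h3 : IntermediateField.adjoin K {(z : Ω)} = F := by
        have h4 := congrArg (IntermediateField.map F.val) hz
        rw [IntermediateField.adjoin_map, ← AlgHom.fieldRange_eq_map, IntermediateField.fieldRange_val] at h4
        simpa using h4
      rw [← h3, IntermediateField.adjoin_simple_le_iff]
      exact hzT
    have hχ2 : ∀ t : F ≃ₐ[K] F, χ t = 1 ∨ χ t = -1 := by
      intro t
      have h3 : t * t = 1 := by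
        obtain ⟨t', rfl⟩ := hsurj t
        ext z
        rw [AlgEquiv.mul_apply, hres, hres]
        exact hsq t' z z.2
      have h4 : χ t ^ 2 = 1 := by rw [← map_pow, pow_two, h3, map_one]
      exact sq_eq_sq_iff_eq_or_eq_neg.1 (by rw [h4, one_pow])
    obtain ⟨D, hD, y, hy, hy'⟩ := char_step h1 h0 hmul T (fun x hx => hTS hx)
      (χ.comp (AlgEquiv.restrictNormalHom F)) (fun t => hχ2 _) (by
        intro t ht
        have h3 : AlgEquiv.restrictNormalHom F t = 1 := by
          ext z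
          rw [hres, AlgEquiv.one_apply]
          exact hagree (T : Set Ω) t 1 (fun x hx => ht x hx) z (hFT z.2)
        rw [MonoidHom.comp_apply, h3, map_one])
    have hyF : y ∈ F := by
      rw [← InfiniteGalois.fixedField_fixingSubgroup F, IntermediateField.mem_fixedField_iff]
      intro t ht
      rcases hy' t with ⟨h3, _⟩ | ⟨_, h3⟩
      · exact h3
      · exfalso
        have h4 : AlgEquiv.restrictNormalHom F t = 1 := by
          ext z
          rw [hres, AlgEquiv.one_apply]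
          exact (IntermediateField.mem_fixingSubgroup_iff F t).1 ht z z.2
        rw [MonoidHom.comp_apply, h4, map_one] at h3
        norm_num at h3
    refine ⟨D, hD, ⟨y, hyF⟩, Subtype.ext hy, ?_⟩
    intro t
    obtain ⟨t', rfl⟩ := hsurj t
    rcases hy' t' with ⟨h3, h4⟩ | ⟨h3, h4⟩
    · exact Or.inl ⟨Subtype.ext (by rw [hres]; exact h3), h4⟩
    · exact Or.inr ⟨Subtype.ext (by rw [hres]; exact h3), h4⟩

end Pool.Agent.K4H15.BZ
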